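import Pool.Agent.R495.SP.Marks

namespace Pool.Agent.R495.SP

open Set Filter Topology Complex

theorem al_pow_int (d : ℕ) (hd : 0 < d) : ∃ a b : ℤ, al ^ d = ⟨(a:ℝ), (b:ℝ)⟩ ∧ b % 5 ≠ 0 ∧
    (a - 2 * b) % 5 = 0 := by
  induction d, hd using Nat.le_induction with
  | base =>
    refine ⟨4, -3, ?_, by norm_num, by norm_num⟩
    rw [show Nat.succ 0 = 1 from rfl, pow_one]
    apply Complex.ext <;> simp [al]
  | succ d _ ih =>
    obtain ⟨a, b, h1, h2, h3⟩ := ih
    refine ⟨4 * a + 3 * b, 4 * b - 3 * a, ?_, by omega, by omega⟩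
    rw [pow_succ', h1, mul_al]
    apply Complex.ext <;> simp

theorem al_pow_im (d : ℕ) (hd : 0 < d) : (al ^ d).im ≠ 0 := by
  obtain ⟨a, b, h1, h2, -⟩ := al_pow_int d hd
  rw [h1]
  simp only
  intro h
  have : b = 0 := by exact_mod_cast h
  rw [this] at h2
  simp at h2

theorem diam_T {p q : ℂ} (hp : p ∈ T) (hq : q ∈ T) (h : ‖p - q‖ = 5) :
    p - q = al ∨ p - q = -al := by
  obtain ⟨p1, p2, p3⟩ := hp
  obtain ⟨q1, q2, q3⟩ := hq
  have h2 : Complex.normSq (p - q) = 25 := by
    rw [Complex.normSq_eq_norm_sq, h]; norm_num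
  rw [Complex.normSq_apply] at h2
  simp only [sub_re, sub_im] at h2
  have a1 : (p.re - q.re) ^ 2 ≤ 16 := by nlinarith
  have a2 : (p.im - q.im) ^ 2 ≤ 9 := by nlinarith
  have b1 : (p.re - q.re) ^ 2 = 16 := by nlinarith
  have b2 : (p.im - q.im) ^ 2 = 9 := by nlinarith
  have c1 : p.re - q.re = 4 ∨ p.re - q.re = -4 := by
    have : (p.re - q.re - 4) * (p.re - q.re + 4) = 0 := by nlinarith
    rcases mul_eq_zero.1 this with h | h
    · left; linarith
    · right; linarith
  have c2 : p.im - q.im = 3 ∨ p.im - q.im = -3 := by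
    have : (p.im - q.im - 3) * (p.im - q.im + 3) = 0 := by nlinarith
    rcases mul_eq_zero.1 this with h | h
    · left; linarith
    · right; linarith
  rcases c1 with c1 | c1
  · left
    have e1 : p.im - q.im = -3 := by
      rcases c2 with c2 | c2
      · exfalso; linarith
      · exact c2
    apply Complex.ext
    · simp [al]; linarith
    · simp [al]; linarith
  · right
    have e1 : p.im - q.im = 3 := by
      rcases c2 with c2 | c2
      · exact c2
      · exfalso; linarith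
    apply Complex.ext
    · simp [al]; linarith
    · simp [al]; linarith

/-- the tile at the corner of the annulus `n` -/
def corner (n : ℕ) : Idx := ⟨n + 1, 0, 0, 0, false⟩

theorem corner_valid (n : ℕ) : (corner n).valid := by
  refine ⟨by simp [corner], ?_⟩
  simp only [corner, Bool.false_eq_true, if_false]
  have := sn_pos n
  omega

theorem corner_sub (n : ℕ) (w w' : ℂ) :
    tm (corner n) w - tm (corner n) w' = al ^ n / 5 ^ n * (w - w') := by
  simp only [corner, tm, loc, Bool.false_eq_true, if_false, pl]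
  ring

theorem ratio_ne {n m : ℕ} (h : n < m) : al ^ n / 5 ^ n ≠ al ^ m / 5 ^ m ∧
    al ^ n / 5 ^ n ≠ -(al ^ m / 5 ^ m) := by
  obtain ⟨d, rfl⟩ : ∃ d, m = n + d := ⟨m - n, by omega⟩
  have hd : 0 < d := by omega
  have h5 : ((5:ℂ) ^ n) ≠ 0 := pow_ne_zero _ (by norm_num)
  have h5d : ((5:ℂ) ^ d) ≠ 0 := pow_ne_zero _ (by norm_num)
  have ha : al ^ n ≠ 0 := pow_ne_zero _ al_ne
  have him := al_pow_im d hd
  have e5 : ((5:ℂ) ^ d) = (((5:ℝ) ^ d : ℝ) : ℂ) := by push_cast; rfl
  constructor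
  · intro heq
    have : al ^ d = 5 ^ d := by
      rw [pow_add, pow_add] at heq
      field_simp at heq
      exact heq.symm
    rw [this, e5, Complex.ofReal_im] at him
    exact him rfl
  · intro heq
    have : al ^ d = -5 ^ d := by
      rw [pow_add, pow_add] at heq
      field_simp at heq
      rw [heq]; ring
    rw [this, e5, Complex.neg_im, Complex.ofReal_im] at him
    exact him (by simp)

theorem corner_ratio {n m : ℕ} {v : ℂ}
    (h : (fun z => z + v) '' (tiso (corner n) '' T) = tiso (corner m) '' T) :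
    al ^ n / 5 ^ n = al ^ m / 5 ^ m ∨ al ^ n / 5 ^ n = -(al ^ m / 5 ^ m) := by
  have hp : (⟨4, 0⟩ : ℂ) ∈ T := by refine ⟨?_, ?_, ?_⟩ <;> norm_num
  have hq : (⟨0, 3⟩ : ℂ) ∈ T := by refine ⟨?_, ?_, ?_⟩ <;> norm_num
  have h1 : tiso (corner n) ⟨4, 0⟩ + v ∈ tiso (corner m) '' T := by
    rw [← h]; exact ⟨_, ⟨_, hp, rfl⟩, rfl⟩
  have h2 : tiso (corner n) ⟨0, 3⟩ + v ∈ tiso (corner m) '' T := by
    rw [← h]; exact ⟨_, ⟨_, hq, rfl⟩, rfl⟩
  obtain ⟨p, hpT, hp'⟩ := h1
  obtain ⟨q, hqT, hq'⟩ := h2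
  have e1 : tm (corner m) p - tm (corner m) q = tm (corner n) ⟨4, 0⟩ - tm (corner n) ⟨0, 3⟩ := by
    rw [← tiso_apply, ← tiso_apply, ← tiso_apply, ← tiso_apply, hp', hq']; ring
  rw [corner_sub, corner_sub] at e1
  have e2 : (⟨4, 0⟩ : ℂ) - ⟨0, 3⟩ = al := by apply Complex.ext <;> simp [al]
  rw [e2] at e1
  have hn : ∀ k : ℕ, ‖al ^ k / 5 ^ k‖ = 1 := by
    intro k
    rw [norm_div, norm_pow, norm_al, norm_pow]
    simp
  have e3 : ‖p - q‖ = 5 := by
    have := congrArg norm e1
    rw [norm_mul, norm_mul, hn, hn, one_mul, one_mul, norm_al] at this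
    exact this
  rcases diam_T hpT hqT e3 with e | e
  · rw [e] at e1
    left
    exact (mul_right_cancel₀ al_ne e1).symm
  · rw [e] at e1
    right
    apply mul_right_cancel₀ al_ne
    rw [← e1]; ring

theorem corner_not_translate {n m : ℕ} (hnm : n ≠ m) (v : ℂ) :
    (fun z => z + v) '' (tiso (corner n) '' T) ≠ tiso (corner m) '' T := by
  intro h
  rcases lt_or_gt_of_ne hnm with hlt | hgt
  · rcases corner_ratio h with h' | h'
    · exact (ratio_ne hlt).1 h'
    · exact (ratio_ne hlt).2 h'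
  · rcases corner_ratio h with h' | h'
    · exact (ratio_ne hgt).1 h'.symm
    · apply (ratio_ne hgt).2
      rw [h', neg_neg]

end Pool.Agent.R495.SP
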