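import Pool.Agent.R495.SP.Glue

namespace Pool.Agent.R495.SP

open Set Filter Topology

/-- Linear interpolation between `b n` and `b (n+1)`. -/
def lin (b : ℕ → ℝ) (n : ℕ) (θ : ℝ) : ℝ := b n + θ * (b (n+1) - b n)

def wb (n : ℕ) : ℝ := if n % 4 = 1 ∨ n % 4 = 2 then 1 else 0
def yb (n : ℕ) : ℝ := ((n / 2 : ℕ) : ℝ)

/-- horizontal coordinate of the boustrophedon in the strip `[0,1] × [0,∞)` -/
noncomputable def W : ℝ → ℝ := glue (lin wb)
/-- vertical coordinate of the boustrophedon in the strip `[0,1] × [0,∞)` -/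
noncomputable def Y : ℝ → ℝ := glue (lin yb)

theorem lin_cont (b : ℕ → ℝ) : ContinuousOn (glue (lin b)) (Ici 0) := by
  apply glue_continuousOn
  · intro n
    unfold lin
    fun_prop
  · intro n
    simp [lin]

theorem W_cont : ContinuousOn W (Ici 0) := lin_cont wb
theorem Y_cont : ContinuousOn Y (Ici 0) := lin_cont yb

theorem WY_floor (q : ℕ) (θ : ℝ) (h0 : 0 ≤ θ) (h1 : θ < 1) (b : ℕ → ℝ) :
    glue (lin b) (q + θ) = b q + θ * (b (q+1) - b q) := by
  have : ⌊(q:ℝ) + θ⌋₊ = q := by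
    rw [Nat.floor_eq_iff (by positivity)]
    constructor <;> linarith
  simp only [glue, this, lin, add_sub_cancel_left]

/-- on the line number `j` -/
theorem WY_line (j : ℕ) (θ : ℝ) (h0 : 0 ≤ θ) (h1 : θ < 1) :
    Y (2 * j + θ) = j ∧ (j % 2 = 0 → W (2 * j + θ) = θ) ∧ (j % 2 = 1 → W (2 * j + θ) = 1 - θ) := by
  have e : (2 * (j:ℝ) + θ) = ((2 * j : ℕ) : ℝ) + θ := by push_cast; ring
  rw [e]
  refine ⟨?_, ?_, ?_⟩
  · rw [Y, WY_floor _ _ h0 h1]
    have a1 : (2 * j) / 2 = j := by omega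
    have a2 : (2 * j + 1) / 2 = j := by omega
    simp only [yb, a1, a2]; ring
  · intro hj
    rw [W, WY_floor _ _ h0 h1]
    have a1 : (2 * j) % 4 = 0 := by omega
    have a2 : (2 * j + 1) % 4 = 1 := by omega
    simp [wb, a1, a2]
  · intro hj
    rw [W, WY_floor _ _ h0 h1]
    have a1 : (2 * j) % 4 = 2 := by omega
    have a2 : (2 * j + 1) % 4 = 3 := by omega
    simp [wb, a1, a2]; ring

/-- on the connector after the line number `j` -/
theorem WY_conn (j : ℕ) (θ : ℝ) (h0 : 0 ≤ θ) (h1 : θ < 1) :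
    Y (2 * j + 1 + θ) = j + θ ∧ (j % 2 = 0 → W (2 * j + 1 + θ) = 1) ∧
      (j % 2 = 1 → W (2 * j + 1 + θ) = 0) := by
  have e : (2 * (j:ℝ) + 1 + θ) = ((2 * j + 1 : ℕ) : ℝ) + θ := by push_cast; ring
  rw [e]
  refine ⟨?_, ?_, ?_⟩
  · rw [Y, WY_floor _ _ h0 h1]
    have a1 : (2 * j + 1) / 2 = j := by omega
    have a2 : (2 * j + 1 + 1) / 2 = j + 1 := by omega
    simp only [yb, a1, a2]; push_cast; ring
  · intro hj
    rw [W, WY_floor _ _ h0 h1]
    have a1 : (2 * j + 1) % 4 = 1 := by omega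
    have a2 : (2 * j + 1 + 1) % 4 = 2 := by omega
    simp [wb, a1, a2]
  · intro hj
    rw [W, WY_floor _ _ h0 h1]
    have a1 : (2 * j + 1) % 4 = 3 := by omega
    have a2 : (2 * j + 1 + 1) % 4 = 0 := by omega
    simp [wb, a1, a2]

theorem WY_cases {t : ℝ} (ht : 0 ≤ t) : ∃ (j : ℕ) (θ : ℝ), 0 ≤ θ ∧ θ < 1 ∧
    ((t = 2 * j + θ ∧ Y t = j ∧ (j % 2 = 0 ∧ W t = θ ∨ j % 2 = 1 ∧ W t = 1 - θ)) ∨
     (t = 2 * j + 1 + θ ∧ Y t = j + θ ∧ (j % 2 = 0 ∧ W t = 1 ∨ j % 2 = 1 ∧ W t = 0))) := by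
  have f1 := frac_mem ht
  set θ := t - ⌊t⌋₊ with hθ
  rcases Nat.even_or_odd' ⌊t⌋₊ with ⟨j, hj | hj⟩
  · refine ⟨j, θ, f1.1, f1.2, Or.inl ?_⟩
    have e : t = 2 * j + θ := by rw [hθ, hj]; push_cast; ring
    have := WY_line j θ f1.1 f1.2
    rw [← e] at this
    refine ⟨e, this.1, ?_⟩
    rcases Nat.mod_two_eq_zero_or_one j with h | h
    · exact Or.inl ⟨h, this.2.1 h⟩
    · exact Or.inr ⟨h, this.2.2 h⟩
  · refine ⟨j, θ, f1.1, f1.2, Or.inr ?_⟩
    have e : t = 2 * j + 1 + θ := by rw [hθ, hj]; push_cast; ring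
    have := WY_conn j θ f1.1 f1.2
    rw [← e] at this
    refine ⟨e, this.1, ?_⟩
    rcases Nat.mod_two_eq_zero_or_one j with h | h
    · exact Or.inl ⟨h, this.2.1 h⟩
    · exact Or.inr ⟨h, this.2.2 h⟩

theorem W_mem {t : ℝ} (ht : 0 ≤ t) : 0 ≤ W t ∧ W t ≤ 1 := by
  obtain ⟨j, θ, h0, h1, h | h⟩ := WY_cases ht
  · rcases h.2.2 with h' | h' <;> rw [h'.2] <;> constructor <;> linarith
  · rcases h.2.2 with h' | h' <;> rw [h'.2] <;> constructor <;> linarith

theorem Y_nonneg {t : ℝ} (ht : 0 ≤ t) : 0 ≤ Y t := by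
  obtain ⟨j, θ, h0, h1, h | h⟩ := WY_cases ht
  · rw [h.2.1]; positivity
  · rw [h.2.1]; positivity

theorem Y_lt {t : ℝ} (ht : 0 ≤ t) (s : ℕ) (hs : t < 2 * s) : Y t < s := by
  obtain ⟨j, θ, h0, h1, h | h⟩ := WY_cases ht
  · rw [h.2.1]
    have : (2 * (j:ℝ)) < 2 * s := by linarith [h.1]
    have : (j:ℝ) < s := by linarith
    exact this
  · rw [h.2.1]
    have : ((2 * j + 1 : ℕ):ℝ) < ((2 * s : ℕ) : ℝ) := by push_cast; linarith [h.1]
    have h2 : 2 * j + 1 < 2 * s := by exact_mod_cast this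
    have h3 : j + 1 ≤ s := by omega
    have h4 : ((j + 1 : ℕ):ℝ) ≤ s := by exact_mod_cast h3
    push_cast at h4
    linarith

theorem Y_two_mul (s : ℕ) : Y (2 * s) = s := by
  have := (WY_line s 0 le_rfl one_pos).1
  simpa using this

theorem W_two_mul_mul (t : ℝ) (ht : t = 0) : W t = 0 ∧ Y t = 0 := by
  subst ht
  have := WY_line 0 0 le_rfl one_pos
  simp at this
  exact ⟨this.2, this.1⟩

theorem WY_inj {t t' : ℝ} (ht : 0 ≤ t) (ht' : 0 ≤ t') (hY : Y t = Y t') (hW : W t = W t') :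
    t = t' := by
  obtain ⟨j, θ, h0, h1, h | h⟩ := WY_cases ht
  · obtain ⟨j', θ', h0', h1', h' | h'⟩ := WY_cases ht'
    · rw [h.2.1, h'.2.1] at hY
      have hj : j = j' := by exact_mod_cast hY
      subst hj
      rcases h.2.2 with a | a <;> rcases h'.2.2 with b | b
      · rw [a.2, b.2] at hW; rw [h.1, h'.1, hW]
      · omega
      · omega
      · rw [a.2, b.2] at hW; rw [h.1, h'.1]; linarith
    · rw [h.2.1, h'.2.1] at hY
      have c1 : (j':ℝ) ≤ j := by linarith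
      have c2 : (j:ℝ) < ((j'+1:ℕ):ℝ) := by push_cast; linarith
      have c1' : j' ≤ j := by exact_mod_cast c1
      have c2' : j < j' + 1 := by exact_mod_cast c2
      have hj : j = j' := by omega
      subst hj
      rcases h.2.2 with a | a <;> rcases h'.2.2 with b | b
      · rw [a.2, b.2] at hW; linarith
      · omega
      · omega
      · rw [a.2, b.2] at hW; linarith
  · obtain ⟨j', θ', h0', h1', h' | h'⟩ := WY_cases ht'
    · rw [h.2.1, h'.2.1] at hY
      have c1 : (j:ℝ) ≤ j' := by linarith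
      have c2 : (j':ℝ) < ((j+1:ℕ):ℝ) := by push_cast; linarith
      have c1' : j ≤ j' := by exact_mod_cast c1
      have c2' : j' < j + 1 := by exact_mod_cast c2
      have hj : j = j' := by omega
      subst hj
      rcases h.2.2 with a | a <;> rcases h'.2.2 with b | b
      · rw [a.2, b.2] at hW; linarith
      · omega
      · omega
      · rw [a.2, b.2] at hW; linarith
    · rw [h.2.1, h'.2.1] at hY
      have c1 : (j:ℝ) < ((j'+1:ℕ):ℝ) := by push_cast; linarith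
      have c2 : (j':ℝ) < ((j+1:ℕ):ℝ) := by push_cast; linarith
      have c1' : j < j' + 1 := by exact_mod_cast c1
      have c2' : j' < j + 1 := by exact_mod_cast c2
      have hj : j = j' := by omega
      subst hj
      rw [h.1, h'.1]; linarith

theorem WY_surj (j : ℕ) (ω : ℝ) (h0 : 0 ≤ ω) (h1 : ω ≤ 1) :
    ∃ t : ℝ, 2 * (j:ℝ) ≤ t ∧ t ≤ 2 * j + 1 ∧ Y t = j ∧ W t = ω := by
  rcases Nat.mod_two_eq_zero_or_one j with hj | hj
  · rcases eq_or_lt_of_le h1 with h | h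
    · have := WY_conn j 0 le_rfl one_pos
      refine ⟨2 * j + 1 + 0, by linarith, by linarith, by rw [this.1]; ring, ?_⟩
      rw [this.2.1 hj, h]
    · have := WY_line j ω h0 h
      exact ⟨2 * j + ω, by linarith, by linarith, this.1, this.2.1 hj⟩
  · rcases eq_or_lt_of_le h0 with h | h
    · have := WY_conn j 0 le_rfl one_pos
      refine ⟨2 * j + 1 + 0, by linarith, by linarith, by rw [this.1]; ring, ?_⟩
      rw [this.2.2 hj, h]
    · have := WY_line j (1 - ω) (by linarith) (by linarith)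
      exact ⟨2 * j + (1 - ω), by linarith, by linarith, this.1, by rw [this.2.2 hj]; ring⟩

/-! ### The snake in the unit triangle -/

noncomputable def sη (s : ℕ) (τ : ℝ) : ℝ := Y (2 * s * τ) / s
noncomputable def sξ (s : ℕ) (τ : ℝ) : ℝ := (1 - sη s τ) * W (2 * s * τ)

variable {s : ℕ}

theorem arg_nonneg (s : ℕ) {τ : ℝ} (h : 0 ≤ τ) : (0:ℝ) ≤ 2 * s * τ := by positivity

theorem sη_mem (hs : 0 < s) {τ : ℝ} (h : τ ∈ Icc (0:ℝ) 1) : 0 ≤ sη s τ ∧ sη s τ ≤ 1 := by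
  have hs' : (0:ℝ) < s := by exact_mod_cast hs
  have h0 := arg_nonneg s h.1
  refine ⟨div_nonneg (Y_nonneg h0) hs'.le, ?_⟩
  rw [sη, div_le_one hs']
  rcases eq_or_lt_of_le h.2 with e | e
  · rw [e, mul_one, Y_two_mul]
  · exact (Y_lt h0 s (by nlinarith)).le

theorem sη_lt (hs : 0 < s) {τ : ℝ} (h : 0 ≤ τ) (h1 : τ < 1) : sη s τ < 1 := by
  have hs' : (0:ℝ) < s := by exact_mod_cast hs
  rw [sη, div_lt_one hs']
  exact Y_lt (arg_nonneg s h) s (by nlinarith)

theorem sη_one (hs : 0 < s) : sη s 1 = 1 := by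
  have hs' : (0:ℝ) < s := by exact_mod_cast hs
  rw [sη, mul_one, Y_two_mul, div_self hs'.ne']

theorem sξ_mem (hs : 0 < s) {τ : ℝ} (h : τ ∈ Icc (0:ℝ) 1) : 0 ≤ sξ s τ ∧ sξ s τ + sη s τ ≤ 1 := by
  have h1 := sη_mem hs h
  have h2 := W_mem (arg_nonneg s h.1)
  constructor
  · exact mul_nonneg (by linarith) h2.1
  · have : sξ s τ ≤ (1 - sη s τ) * 1 := mul_le_mul_of_nonneg_left h2.2 (by linarith)
    linarith

theorem s_zero : sη s 0 = 0 ∧ sξ s 0 = 0 := by
  have := W_two_mul_mul (2 * s * 0) (by ring)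
  refine ⟨?_, ?_⟩
  · rw [sη, this.2, zero_div]
  · rw [sξ, this.1, mul_zero]

theorem s_one (hs : 0 < s) : sη s 1 = 1 ∧ sξ s 1 = 0 := by
  refine ⟨sη_one hs, ?_⟩
  rw [sξ, sη_one hs]; ring

theorem sη_cont (s : ℕ) : ContinuousOn (sη s) (Icc 0 1) := by
  have : ContinuousOn (fun τ : ℝ => Y (2 * s * τ)) (Icc 0 1) :=
    Y_cont.comp (by fun_prop) (fun τ h => mem_Ici.2 (arg_nonneg s h.1))
  exact this.div_const _

theorem sξ_cont (s : ℕ) : ContinuousOn (sξ s) (Icc 0 1) := by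
  have : ContinuousOn (fun τ : ℝ => W (2 * s * τ)) (Icc 0 1) :=
    W_cont.comp (by fun_prop) (fun τ h => mem_Ici.2 (arg_nonneg s h.1))
  exact (continuousOn_const.sub (sη_cont s)).mul this

theorem s_inj (hs : 0 < s) {τ τ' : ℝ} (h : τ ∈ Icc (0:ℝ) 1) (h' : τ' ∈ Icc (0:ℝ) 1)
    (hη : sη s τ = sη s τ') (hξ : sξ s τ = sξ s τ') : τ = τ' := by
  have hs' : (0:ℝ) < s := by exact_mod_cast hs
  rcases eq_or_lt_of_le h.2 with e | e
  · rcases eq_or_lt_of_le h'.2 with e' | e'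
    · rw [e, e']
    · have := sη_lt hs h'.1 e'
      rw [← hη, e, sη_one hs] at this
      linarith
  · have h1 := sη_lt hs h.1 e
    have hY : Y (2 * s * τ) = Y (2 * s * τ') := by
      have := hη
      simp only [sη] at this
      field_simp at this
      exact this
    have hW : W (2 * s * τ) = W (2 * s * τ') := by
      have := hξ
      simp only [sξ] at this
      rw [← hη] at this
      exact mul_left_cancel₀ (by linarith) this
    have := WY_inj (arg_nonneg s h.1) (arg_nonneg s h'.1) hY hW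
    have h2 : (2 * (s:ℝ)) ≠ 0 := by positivity
    exact mul_left_cancel₀ h2 this

/-- every point of the line `j` is on the snake -/
theorem s_surj (hs : 0 < s) (j : ℕ) (hj : j < s) (ξ : ℝ) (h0 : 0 ≤ ξ) (h1 : ξ + j / s ≤ 1) :
    ∃ τ ∈ Icc (0:ℝ) 1, sη s τ = j / s ∧ sξ s τ = ξ := by
  have hs' : (0:ℝ) < s := by exact_mod_cast hs
  have hj' : (j:ℝ) + 1 ≤ s := by exact_mod_cast hj
  have hjs : (j:ℝ) / s < 1 := by rw [div_lt_one hs']; linarith
  obtain ⟨t, a, b, c, d⟩ := WY_surj j (ξ / (1 - j / s)) (div_nonneg h0 (by linarith))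
    (by rw [div_le_one (by linarith)]; linarith)
  have ht : (2 * (s:ℝ)) * (t / (2 * s)) = t := by field_simp
  refine ⟨t / (2 * s), ⟨div_nonneg (by linarith [Nat.cast_nonneg (α := ℝ) j]) (by positivity), ?_⟩,
    ?_, ?_⟩
  · rw [div_le_one (by positivity)]; linarith
  · rw [sη, ht, c]
  · rw [sξ, sη, ht, c, d]
    exact mul_div_cancel₀ ξ (show (0:ℝ) < 1 - j / s by linarith).ne'

/-- shape of the snake: a point is on a line, or on the left side, or on the hypotenuse -/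
theorem s_cases (hs : 0 < s) {τ : ℝ} (h : τ ∈ Icc (0:ℝ) 1) :
    (∃ j : ℕ, j < s ∧ sη s τ = j / s) ∨ sξ s τ = 0 ∨ sξ s τ + sη s τ = 1 := by
  have hs' : (0:ℝ) < s := by exact_mod_cast hs
  rcases eq_or_lt_of_le h.2 with e | e
  · right; left; rw [e]; exact (s_one hs).2
  · have h1 := Y_lt (arg_nonneg s h.1) s (by nlinarith)
    obtain ⟨j, θ, h0, h1', h | h⟩ := WY_cases (arg_nonneg s h.1)
    · left
      rw [h.2.1] at h1
      exact ⟨j, by exact_mod_cast h1, by rw [sη, h.2.1]⟩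
    · right
      rcases h.2.2 with h' | h'
      · right; rw [sξ, h'.2]; ring
      · left; rw [sξ, h'.2]; ring

end Pool.Agent.R495.SP
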