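import Pool.Agent.R495.SP.Tiles

namespace Pool.Agent.R495.SP

open Set Filter Topology Complex

theorem slot (m : ℕ) (hm : 0 < m) (a : ℝ) (h0 : 0 ≤ a) (h1 : a ≤ m) :
    ∃ i : ℕ, i < m ∧ (i:ℝ) ≤ a ∧ a ≤ i + 1 := by
  rcases eq_or_lt_of_le h1 with h | h
  · refine ⟨m - 1, by omega, ?_, ?_⟩
    · rw [h]; exact_mod_cast Nat.sub_le m 1
    · rw [h]
      have : ((m - 1 : ℕ) : ℝ) = m - 1 := by
        rw [Nat.cast_sub (by omega)]; simp
      rw [this]; linarith
  · have hf := Nat.floor_le h0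
    have hf2 := Nat.lt_floor_add_one a
    refine ⟨⌊a⌋₊, ?_, hf, hf2.le⟩
    rw [Nat.floor_lt h0]
    exact h

theorem cover_rect (m l : ℕ) (hm : 0 < m) (hl : 0 < l) (A B : ℝ) (hA : 0 ≤ A) (hA' : A ≤ 4 * m)
    (hB : 0 ≤ B) (hB' : B ≤ 3 * l) :
    ∃ i j : ℕ, ∃ up : Bool, ∃ w ∈ T, i < m ∧ j < l ∧ loc i j up w = ⟨A, B⟩ := by
  obtain ⟨i, hi, i1, i2⟩ := slot m hm (A/4) (by positivity) (by linarith)
  obtain ⟨j, hj, j1, j2⟩ := slot l hl (B/3) (by positivity) (by linarith)
  rcases le_or_gt (3 * (A - 4 * i) + 4 * (B - 3 * j)) 12 with h | h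
  · refine ⟨i, j, false, ⟨A - 4 * i, B - 3 * j⟩, ⟨?_, ?_, ?_⟩, hi, hj, ?_⟩
    · simp only; linarith
    · simp only; linarith
    · simp only; linarith
    · simp only [loc, Bool.false_eq_true, if_false]
      apply Complex.ext <;> simp
  · refine ⟨i, j, true, ⟨4 * (i + 1) - A, 3 * (j + 1) - B⟩, ⟨?_, ?_, ?_⟩, hi, hj, ?_⟩
    · simp only; linarith
    · simp only; linarith
    · simp only; linarith
    · simp only [loc, if_true]
      apply Complex.ext <;> simp

theorem cover_tri (s : ℕ) (hs : 0 < s) (A B : ℝ) (hA : 0 ≤ A) (hB : 0 ≤ B)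
    (hAB : 3 * A + 4 * B ≤ 12 * s) :
    ∃ i j : ℕ, ∃ up : Bool, ∃ w ∈ T, i + j + (if up then 2 else 1) ≤ s ∧ loc i j up w = ⟨A, B⟩ := by
  have i1 := Nat.floor_le (show 0 ≤ A/4 by positivity)
  have i2 := Nat.lt_floor_add_one (A/4)
  have j1 := Nat.floor_le (show 0 ≤ B/3 by positivity)
  have j2 := Nat.lt_floor_add_one (B/3)
  set i := ⌊A/4⌋₊
  set j := ⌊B/3⌋₊
  have hij : ((i + j : ℕ) : ℝ) ≤ s := by push_cast; linarith
  have hij' : i + j ≤ s := by exact_mod_cast hij
  rcases Nat.lt_or_ge (i + j) s with hlt | hge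
  · rcases le_or_gt (3 * (A - 4 * i) + 4 * (B - 3 * j)) 12 with h | h
    · refine ⟨i, j, false, ⟨A - 4 * i, B - 3 * j⟩, ⟨?_, ?_, ?_⟩, by simpa using hlt, ?_⟩
      · simp only; linarith
      · simp only; linarith
      · simp only; linarith
      · simp only [loc, Bool.false_eq_true, if_false]
        apply Complex.ext <;> simp
    · refine ⟨i, j, true, ⟨4 * (i + 1) - A, 3 * (j + 1) - B⟩, ⟨?_, ?_, ?_⟩, ?_, ?_⟩
      · simp only; linarith
      · simp only; linarith
      · simp only; linarith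
      · simp only [if_true]
        have : ((i + j + 1 : ℕ) : ℝ) < s := by push_cast; linarith
        have : i + j + 1 < s := by exact_mod_cast this
        omega
      · simp only [loc, if_true]
        apply Complex.ext <;> simp
  · have e : i + j = s := le_antisymm hij' hge
    have e' : (i:ℝ) + j = s := by exact_mod_cast e
    have a1 : A = 4 * i := by linarith
    have b1 : B = 3 * j := by linarith
    rcases Nat.eq_zero_or_pos i with h0 | h0
    · have hj : 0 < j := by omega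
      obtain ⟨j', hj'⟩ : ∃ j', j = j' + 1 := ⟨j - 1, by omega⟩
      refine ⟨i, j', false, ⟨0, 3⟩, ⟨?_, ?_, ?_⟩, ?_, ?_⟩
      · norm_num
      · norm_num
      · norm_num
      · simp only [Bool.false_eq_true, if_false]; omega
      · simp only [loc, Bool.false_eq_true, if_false]
        rw [a1, b1, hj']
        apply Complex.ext
        · simp
        · simp; ring
    · obtain ⟨i', hi'⟩ : ∃ i', i = i' + 1 := ⟨i - 1, by omega⟩
      refine ⟨i', j, false, ⟨4, 0⟩, ⟨?_, ?_, ?_⟩, ?_, ?_⟩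
      · norm_num
      · norm_num
      · norm_num
      · simp only [Bool.false_eq_true, if_false]; omega
      · simp only [loc, Bool.false_eq_true, if_false]
        rw [a1, b1, hi']
        apply Complex.ext
        · simp; ring
        · simp

theorem quad_cover (z : ℂ) (h1 : 6 < N z) (h2 : N (z / al) ≤ 6) :
    ∃ k < 4, ∃ x y : ℝ, z = (-I) ^ k * ⟨x, y⟩ ∧ -6 ≤ x ∧ 6 ≤ y ∧ 3 * x + 4 * y ≤ 150 := by
  rw [N_le_iff, div_al] at h2
  simp only at h2
  obtain ⟨⟨a1, a2⟩, a3, a4⟩ := h2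
  rcases le_or_gt z.im 6 with hi | hi
  · rcases le_or_gt z.re 6 with hr | hr
    · rcases le_or_gt (-6) z.im with hi' | hi'
      · -- then `z.re < -6`
        have hr' : z.re < -6 := by
          by_contra hcon
          push Not at hcon
          have : N z ≤ 6 := by rw [N_le_iff]; exact ⟨⟨hcon, hr⟩, hi', hi⟩
          linarith
        refine ⟨3, by norm_num, z.im, -z.re, ?_, hi', by linarith, by linarith⟩
        rw [rot3]; apply Complex.ext <;> simp
      · refine ⟨2, by norm_num, -z.re, -z.im, ?_, by linarith, by linarith, by linarith⟩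
        rw [rot2]; apply Complex.ext <;> simp
    · refine ⟨1, by norm_num, -z.im, z.re, ?_, by linarith, by linarith, by linarith⟩
      rw [rot1]; apply Complex.ext <;> simp
  · rcases le_or_gt (-6) z.re with hr | hr
    · exact ⟨0, by norm_num, z.re, z.im, by simp, hr, hi.le, by linarith⟩
    · refine ⟨3, by norm_num, z.im, -z.re, ?_, by linarith, by linarith, by linarith⟩
      rw [rot3]; apply Complex.ext <;> simp

theorem exists_lev (z : ℂ) : ∃ n, lev n z ≤ 6 := by
  obtain ⟨n, hn⟩ := exists_nat_gt ‖z‖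
  refine ⟨n, ?_⟩
  have h1 : lev n z ≤ ‖z / al ^ n‖ := N_le_norm _
  rw [norm_div, norm_pow, norm_al] at h1
  have h5 := five_pow_ge n
  have h6 : (0:ℝ) < 5 ^ n := by positivity
  have h7 : ‖z‖ / 5 ^ n ≤ 1 := by rw [div_le_one h6]; linarith
  linarith

theorem cover (z : ℂ) : ∃ t : Idx, t.valid ∧ ∃ w ∈ T, tm t w = z := by
  classical
  have hex := exists_lev z
  have h1 := Nat.find_spec hex
  have h2 := fun m (hm : m < Nat.find hex) => Nat.find_min hex hm
  set n := Nat.find hex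
  rcases Nat.eq_zero_or_pos n with h0 | h0
  · rw [h0, lev, pow_zero, div_one, N_le_iff] at h1
    obtain ⟨⟨a1, a2⟩, a3, a4⟩ := h1
    obtain ⟨i, j, up, w, hw, hi, hj, e⟩ := cover_rect 3 4 (by norm_num) (by norm_num)
      (z.re + 6) (z.im + 6) (by linarith) (by push_cast; linarith) (by linarith)
      (by push_cast; linarith)
    refine ⟨⟨0, 0, i, j, up⟩, ⟨rfl, hi, hj⟩, w, hw, ?_⟩
    simp only [tm]
    rw [e]
    apply Complex.ext <;> simp
  · obtain ⟨m, hm⟩ : ∃ m, n = m + 1 := ⟨n - 1, by omega⟩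
    have h3 := h2 m (by omega)
    rw [hm] at h1
    push Not at h3
    rw [lev, pow_succ, ← div_div] at h1
    obtain ⟨k, hk, x, y, e, hx, hy, hxy⟩ := quad_cover (z / al ^ m) h3 h1
    have h5 : (0:ℝ) < 5 ^ m := by positivity
    obtain ⟨i, j, up, w, hw, hv, e'⟩ := cover_tri (sn m) (sn_pos m) ((x + 6) * 5 ^ m) ((y - 6) * 5 ^ m)
      (mul_nonneg (by linarith) h5.le) (mul_nonneg (by linarith) h5.le) (by
        simp only [sn]; push_cast
        nlinarith)
    refine ⟨⟨m + 1, k, i, j, up⟩, ⟨hk, hv⟩, w, hw, ?_⟩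
    simp only [tm]
    rw [e']
    have e5 : ((5:ℂ) ^ m) = (((5:ℝ) ^ m : ℝ) : ℂ) := by push_cast; rfl
    have e6 : (⟨-6, 6⟩ : ℂ) + ⟨(x + 6) * 5 ^ m, (y - 6) * 5 ^ m⟩ / 5 ^ m = ⟨x, y⟩ := by
      rw [e5]
      apply Complex.ext
      · simp only [add_re, Complex.div_ofReal_re]; field_simp; ring
      · simp only [add_im, Complex.div_ofReal_im]; field_simp; ring
    rw [e6, pl, mul_assoc, ← e, mul_div_cancel₀ _ (pow_ne_zero _ al_ne)]

end Pool.Agent.R495.SP
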