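import Pool.Agent.R495.SP.Boustro

namespace Pool.Agent.R495.SP

open Set Filter Topology Complex

/-- the similarity ratio of the construction, of modulus `5` -/
noncomputable def al : ℂ := ⟨4, -3⟩

/-- affine coordinates on the big right triangle with vertices `-6+6i`, `42+6i`, `-6+42i` -/
noncomputable def D (ξ η : ℝ) : ℂ := ⟨-6 + 48 * ξ, 6 + 36 * η⟩

/-- the sup norm -/
noncomputable def N (z : ℂ) : ℝ := max |z.re| |z.im|

/-- the similarity that places the annulus number `n`, turned `k` times -/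
noncomputable def pl (n k : ℕ) (z : ℂ) : ℂ := al ^ n * (-I) ^ k * z

noncomputable def lev (n : ℕ) (z : ℂ) : ℝ := N (z / al ^ n)

theorem al_ne : al ≠ 0 := by
  intro h
  have := congrArg Complex.re h
  simp [al] at this

theorem norm_al : ‖al‖ = 5 := by
  rw [Complex.norm_def, Complex.normSq_apply]
  simp only [al]
  rw [show (4:ℝ) * 4 + -3 * -3 = 5 ^ 2 by norm_num]
  exact Real.sqrt_sq (by norm_num)

theorem div_al (w : ℂ) : w / al = ⟨(4 * w.re - 3 * w.im) / 25, (3 * w.re + 4 * w.im) / 25⟩ := by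
  rw [div_eq_iff al_ne]
  apply Complex.ext
  · simp [al]; ring
  · simp [al]; ring

theorem mul_al (w : ℂ) : al * w = ⟨4 * w.re + 3 * w.im, 4 * w.im - 3 * w.re⟩ := by
  apply Complex.ext
  · simp [al]
  · simp [al]; ring

theorem N_nonneg (z : ℂ) : 0 ≤ N z := le_max_of_le_left (abs_nonneg _)

theorem N_le_norm (z : ℂ) : N z ≤ ‖z‖ := max_le (Complex.abs_re_le_norm z) (Complex.abs_im_le_norm z)

theorem N_negI (w : ℂ) : N (-I * w) = N w := by
  simp [N, max_comm]

theorem N_negI_pow (k : ℕ) (w : ℂ) : N ((-I) ^ k * w) = N w := by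
  induction k with
  | zero => simp
  | succ k ih => rw [pow_succ', mul_assoc, N_negI, ih]

theorem N_le_iff (z : ℂ) (c : ℝ) : N z ≤ c ↔ (-c ≤ z.re ∧ z.re ≤ c) ∧ (-c ≤ z.im ∧ z.im ≤ c) := by
  rw [N, max_le_iff, abs_le, abs_le]

theorem N_lt_iff (z : ℂ) (c : ℝ) : N z < c ↔ (-c < z.re ∧ z.re < c) ∧ (-c < z.im ∧ z.im < c) := by
  rw [N, max_lt_iff, abs_lt, abs_lt]

theorem N_div_al (w : ℂ) : N (w / al) ≤ 7 / 25 * N w := by
  have h := (N_le_iff w (N w)).1 le_rfl
  rw [N_le_iff, div_al]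
  obtain ⟨⟨a, b⟩, c, d⟩ := h
  simp only
  refine ⟨⟨?_, ?_⟩, ?_, ?_⟩ <;> linarith

theorem lev_nonneg (n : ℕ) (z : ℂ) : 0 ≤ lev n z := N_nonneg _

theorem lev_succ (n : ℕ) (z : ℂ) : lev (n+1) z ≤ 7 / 25 * lev n z := by
  rw [lev, lev, pow_succ, ← div_div]
  exact N_div_al _

theorem lev_anti (n m : ℕ) (h : n ≤ m) (z : ℂ) : lev m z ≤ lev n z := by
  induction m, h using Nat.le_induction with
  | base => exact le_rfl
  | succ m _ ih =>
    have := lev_succ m z
    have := lev_nonneg m z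
    linarith

theorem lev_lt (n m : ℕ) (h : n < m) (z : ℂ) : lev m z ≤ 7 / 25 * lev n z :=
  (lev_anti (n+1) m h z).trans (lev_succ n z)

theorem negI_pow_ne (k : ℕ) : ((-I : ℂ)) ^ k ≠ 0 := pow_ne_zero _ (neg_ne_zero.2 I_ne_zero)

theorem pl_div (n k : ℕ) (w : ℂ) : pl n k w / al ^ n = (-I) ^ k * w := by
  rw [pl, mul_assoc, mul_div_assoc, mul_comm, div_mul_cancel₀ _ (pow_ne_zero _ al_ne)]

theorem lev_pl (n k : ℕ) (w : ℂ) : lev n (pl n k w) = N w := by
  rw [lev, pl_div, N_negI_pow]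

theorem lev_pl_succ (n k : ℕ) (w : ℂ) : lev (n+1) (pl n k w) = N (w / al) := by
  rw [lev, pow_succ, ← div_div, pl_div, mul_div_assoc, N_negI_pow]

theorem norm_pl (n k : ℕ) (w : ℂ) : ‖pl n k w‖ = 5 ^ n * ‖w‖ := by
  rw [pl, norm_mul, norm_mul, norm_pow, norm_pow, norm_al, norm_neg, Complex.norm_I, one_pow, mul_one]

theorem pl_inj (n k : ℕ) {w w' : ℂ} (h : pl n k w = pl n k w') : w = w' :=
  mul_left_cancel₀ (mul_ne_zero (pow_ne_zero _ al_ne) (negI_pow_ne k)) h

/-! ### The big triangle -/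

theorem D_N {ξ η : ℝ} (h1 : 0 ≤ ξ) (h2 : 0 ≤ η) (h3 : ξ + η ≤ 1) :
    6 ≤ N (D ξ η) ∧ N (D ξ η / al) ≤ 6 := by
  constructor
  · refine le_trans ?_ (le_max_right _ _)
    simp only [D]
    rw [abs_of_nonneg (by linarith)]
    linarith
  · rw [N_le_iff, div_al]
    simp only [D]
    refine ⟨⟨?_, ?_⟩, ?_, ?_⟩ <;> linarith

theorem D_zero_one : D 0 1 = al * D 0 0 := by
  rw [mul_al]; apply Complex.ext <;> simp [D] <;> norm_num

theorem pl_D_one (n k : ℕ) : pl n k (D 0 1) = pl (n+1) k (D 0 0) := by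
  rw [D_zero_one, pl, pl, pow_succ]; ring

theorem D_cont : Continuous (fun p : ℝ × ℝ => D p.1 p.2) := by
  have : (fun p : ℝ × ℝ => D p.1 p.2)
      = fun p => ((-6 + 48 * p.1 : ℝ) : ℂ) + ((6 + 36 * p.2 : ℝ) : ℂ) * I := by
    funext p
    apply Complex.ext <;> simp [D]
  rw [this]
  fun_prop

theorem D_inj {ξ η ξ' η' : ℝ} (h : D ξ η = D ξ' η') : ξ = ξ' ∧ η = η' := by
  have h1 := congrArg Complex.re h
  have h2 := congrArg Complex.im h
  simp only [D] at h1 h2
  constructor <;> linarith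

/-- number of subdivisions of the sides of the big triangles in the annulus `n` -/
def sn (n : ℕ) : ℕ := 12 * 5 ^ n

theorem sn_pos (n : ℕ) : 0 < sn n := by unfold sn; positivity

/-- the two kinds of pieces: snakes and spokes -/
noncomputable def piece (b : Bool) (n k : ℕ) (τ : ℝ) : ℂ :=
  if b then pl n k (D (sξ (sn n) τ) (sη (sn n) τ)) else pl n k (D 0 τ)

theorem pl_cont (n k : ℕ) : Continuous (pl n k) := by
  unfold pl; fun_prop

theorem piece_cont (b : Bool) (n k : ℕ) : ContinuousOn (piece b n k) (Icc 0 1) := by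
  cases b
  · have : ContinuousOn (fun τ : ℝ => pl n k (D 0 τ)) (Icc 0 1) := by
      apply Continuous.continuousOn
      exact (pl_cont n k).comp (D_cont.comp (f := fun τ : ℝ => ((0:ℝ), τ)) (by fun_prop))
    exact this.congr (fun τ _ => by simp [piece])
  · have : ContinuousOn (fun τ : ℝ => pl n k (D (sξ (sn n) τ) (sη (sn n) τ))) (Icc 0 1) := by
      apply (pl_cont n k).comp_continuousOn
      exact D_cont.comp_continuousOn ((sξ_cont (sn n)).prodMk (sη_cont (sn n)))
    exact this.congr (fun τ _ => by simp [piece])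

theorem piece_inj (b : Bool) (n k : ℕ) : InjOn (piece b n k) (Icc 0 1) := by
  intro τ h τ' h' heq
  cases b
  · simp only [piece, Bool.false_eq_true, if_false] at heq
    exact (D_inj (pl_inj n k heq)).2
  · simp only [piece, if_true] at heq
    have := D_inj (pl_inj n k heq)
    exact s_inj (sn_pos n) h h' this.2 this.1

theorem piece_zero (b : Bool) (n k : ℕ) : piece b n k 0 = pl n k (D 0 0) := by
  cases b
  · simp [piece]
  · simp [piece, s_zero.1, s_zero.2]

theorem piece_one (b : Bool) (n k : ℕ) : piece b n k 1 = pl (n+1) k (D 0 0) := by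
  rw [← pl_D_one]
  cases b
  · simp [piece]
  · simp [piece, (s_one (sn_pos n)).1, (s_one (sn_pos n)).2]

theorem piece_lev (b : Bool) (n k : ℕ) {τ : ℝ} (h : τ ∈ Icc (0:ℝ) 1) :
    6 ≤ lev n (piece b n k τ) ∧ lev (n+1) (piece b n k τ) ≤ 6 ∧ 6 * 5 ^ n ≤ ‖piece b n k τ‖ := by
  have key : ∀ ξ η : ℝ, 0 ≤ ξ → 0 ≤ η → ξ + η ≤ 1 → 6 ≤ lev n (pl n k (D ξ η)) ∧
      lev (n+1) (pl n k (D ξ η)) ≤ 6 ∧ 6 * 5 ^ n ≤ ‖pl n k (D ξ η)‖ := by
    intro ξ η h1 h2 h3
    have := D_N h1 h2 h3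
    rw [lev_pl, lev_pl_succ, norm_pl]
    refine ⟨this.1, this.2, ?_⟩
    have h5 := N_le_norm (D ξ η)
    have : (0:ℝ) < 5 ^ n := by positivity
    nlinarith
  cases b
  · simp only [piece, Bool.false_eq_true, if_false]
    exact key 0 τ le_rfl h.1 (by linarith [h.2])
  · simp only [piece, if_true]
    have h1 := sη_mem (sn_pos n) h
    have h2 := sξ_mem (sn_pos n) h
    exact key _ _ h2.1 h1.1 h2.2

theorem spoke_start (n k : ℕ) {τ : ℝ} (h : τ ∈ Icc (0:ℝ) 1)
    (h6 : lev n (piece false n k τ) ≤ 6) : τ = 0 := by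
  simp only [piece, Bool.false_eq_true, if_false, lev_pl, N_le_iff, D] at h6
  linarith [h6.2.2, h.1]

theorem spoke_end (n k : ℕ) {τ : ℝ} (h : τ ∈ Icc (0:ℝ) 1)
    (h6 : 6 ≤ lev (n+1) (piece false n k τ)) : τ = 1 := by
  simp only [piece, Bool.false_eq_true, if_false, lev_pl_succ] at h6
  rcases eq_or_lt_of_le h.2 with e | e
  · exact e
  · exfalso
    have : N (D 0 τ / al) < 6 := by
      rw [N_lt_iff, div_al]
      simp only [D]
      refine ⟨⟨?_, ?_⟩, ?_, ?_⟩ <;> linarith [h.1]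
    linarith

/-- the pieces of the curve of class `(ε, k)` -/
noncomputable def cv (ε k n : ℕ) : ℝ → ℂ := piece (decide ((n + ε) % 2 = 0)) n k

theorem cv_glue (ε k n : ℕ) : cv ε k n 1 = cv ε k (n+1) 0 := by
  rw [cv, cv, piece_one, piece_zero]

theorem cv_adj (ε k n : ℕ) : ∀ x ∈ Icc (0:ℝ) 1, ∀ y ∈ Icc (0:ℝ) 1,
    cv ε k n x = cv ε k (n+1) y → x = 1 ∧ y = 0 := by
  intro x hx y hy heq
  have h1 : lev (n+1) (cv ε k n x) ≤ 6 := (piece_lev _ n k hx).2.1
  have h2 : 6 ≤ lev (n+1) (cv ε k (n+1) y) := (piece_lev _ (n+1) k hy).1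
  rcases Nat.mod_two_eq_zero_or_one (n + ε) with h | h
  · -- piece `n` is a snake, piece `n+1` is a spoke
    have e : cv ε k (n+1) = piece false (n+1) k := by
      rw [cv, show decide ((n + 1 + ε) % 2 = 0) = false from by
        rw [decide_eq_false_iff_not]; omega]
    have hy0 : y = 0 := by
      apply spoke_start (n+1) k hy
      rw [← e, ← heq]; exact h1
    refine ⟨?_, hy0⟩
    rw [hy0, ← cv_glue] at heq
    exact piece_inj _ n k hx ⟨zero_le_one, le_rfl⟩ heq
  · have e : cv ε k n = piece false n k := by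
      rw [cv, show decide ((n + ε) % 2 = 0) = false from by
        rw [decide_eq_false_iff_not]; omega]
    have hx1 : x = 1 := by
      apply spoke_end n k hx
      rw [← e, heq]; exact h2
    refine ⟨hx1, ?_⟩
    rw [hx1, cv_glue] at heq
    exact (piece_inj _ (n+1) k ⟨le_rfl, zero_le_one⟩ hy heq).symm

theorem cv_far (ε k ε' k' n m : ℕ) (hnm : n + 2 ≤ m) : ∀ x ∈ Icc (0:ℝ) 1, ∀ y ∈ Icc (0:ℝ) 1,
    cv ε k n x ≠ cv ε' k' m y := by
  intro x hx y hy heq
  have h1 : lev (n+1) (cv ε k n x) ≤ 6 := (piece_lev _ n k hx).2.1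
  have h2 : 6 ≤ lev m (cv ε' k' m y) := (piece_lev _ m k' hy).1
  rw [← heq] at h2
  have h3 := lev_lt (n+1) m (by omega) (cv ε k n x)
  linarith

theorem five_pow_ge (n : ℕ) : ((n:ℝ) + 1) ≤ 5 ^ n := by
  induction n with
  | zero => simp
  | succ n ih => push_cast; rw [pow_succ]; nlinarith [Nat.cast_nonneg (α := ℝ) n]

theorem cv_ray (ε k : ℕ) : Nonempty ((⋃ n, cv ε k n '' Icc (0:ℝ) 1 : Set ℂ) ≃ₜ Ici (0:ℝ)) ∧
      ¬ Bornology.IsBounded (⋃ n, cv ε k n '' Icc (0:ℝ) 1) := by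
  refine ray_of_pieces (cv ε k) (fun n => (n:ℝ)) (fun n => piece_cont _ n k)
    (fun n => piece_inj _ n k) (cv_glue ε k) (cv_adj ε k) (fun n m h => cv_far ε k ε k n m h)
    tendsto_natCast_atTop_atTop (fun n x hx => ?_)
  have := (piece_lev (decide ((n + ε) % 2 = 0)) n k hx).2.2
  have h5 := five_pow_ge n
  have : 6 * 5 ^ n ≤ ‖cv ε k n x‖ := this
  change (n:ℝ) ≤ _
  nlinarith

/-! ### The core path -/

noncomputable def core (τ : ℝ) : ℂ := ⟨-6 + 12 * W (6 * τ), -3 + 3 * Y (6 * τ)⟩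

theorem core_cont : ContinuousOn core (Icc 0 1) := by
  have h1 : ContinuousOn (fun τ : ℝ => W (6 * τ)) (Icc 0 1) :=
    W_cont.comp (by fun_prop) (fun τ h => mem_Ici.2 (by have := h.1; positivity))
  have h2 : ContinuousOn (fun τ : ℝ => Y (6 * τ)) (Icc 0 1) :=
    Y_cont.comp (by fun_prop) (fun τ h => mem_Ici.2 (by have := h.1; positivity))
  have : core = fun τ => ((-6 + 12 * W (6 * τ) : ℝ) : ℂ) + ((-3 + 3 * Y (6 * τ) : ℝ) : ℂ) * I := by
    funext p
    apply Complex.ext <;> simp [core]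
  rw [this]
  have h3 : ContinuousOn (fun τ : ℝ => (-6 + 12 * W (6 * τ) : ℝ)) (Icc 0 1) :=
    continuousOn_const.add (continuousOn_const.mul h1)
  have h4 : ContinuousOn (fun τ : ℝ => (-3 + 3 * Y (6 * τ) : ℝ)) (Icc 0 1) :=
    continuousOn_const.add (continuousOn_const.mul h2)
  exact (Complex.continuous_ofReal.comp_continuousOn h3).add
    ((Complex.continuous_ofReal.comp_continuousOn h4).mul continuousOn_const)

theorem core_inj : InjOn core (Icc 0 1) := by
  intro τ h τ' h' heq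
  have h1 := congrArg Complex.re heq
  have h2 := congrArg Complex.im heq
  simp only [core] at h1 h2
  have := WY_inj (t := 6 * τ) (t' := 6 * τ') (by have := h.1; positivity) (by have := h'.1; positivity)
    (by linarith) (by linarith)
  linarith

theorem core_one : core 1 = pl 0 1 (D 0 0) := by
  have h := WY_line 3 0 le_rfl one_pos
  have e : (2 * ((3:ℕ):ℝ) + 0) = 6 * 1 := by norm_num
  rw [e] at h
  have h1 := h.1
  have h2 := h.2.2 (by norm_num)
  apply Complex.ext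
  · simp only [core, h2, pl, D]; simp; norm_num
  · simp only [core, h1, pl, D]; simp; norm_num

theorem core_Y_le {τ : ℝ} (h : τ ∈ Icc (0:ℝ) 1) : Y (6 * τ) ≤ 3 := by
  rcases eq_or_lt_of_le h.2 with e | e
  · rw [e]
    have := Y_two_mul 3
    rw [show (2 * ((3:ℕ):ℝ)) = 6 * 1 by norm_num] at this
    rw [this]; norm_num
  · have := Y_lt (t := 6 * τ) (by have := h.1; positivity) 3 (by push_cast; linarith)
    push_cast at this
    linarith

theorem core_lev {τ : ℝ} (h : τ ∈ Icc (0:ℝ) 1) : lev 0 (core τ) ≤ 6 := by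
  have h0 : (0:ℝ) ≤ 6 * τ := by have := h.1; positivity
  have h1 := W_mem h0
  have h2 := Y_nonneg h0
  have h3 := core_Y_le h
  rw [lev, pow_zero, div_one, N_le_iff]
  simp only [core]
  refine ⟨⟨?_, ?_⟩, ?_, ?_⟩ <;> linarith

/-- the pieces of the curve that starts with the core path -/
noncomputable def cc (n : ℕ) : ℝ → ℂ := match n with
  | 0 => core
  | n + 1 => cv 1 1 n

theorem cc_ray : Nonempty ((⋃ n, cc n '' Icc (0:ℝ) 1 : Set ℂ) ≃ₜ Ici (0:ℝ)) ∧
      ¬ Bornology.IsBounded (⋃ n, cc n '' Icc (0:ℝ) 1) := by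
  have hg0 : core 1 = cv 1 1 0 0 := by rw [core_one, cv, piece_zero]
  refine ray_of_pieces cc (fun n => (n:ℝ)) ?_ ?_ ?_ ?_ ?_ tendsto_natCast_atTop_atTop ?_
  · intro n
    cases n with
    | zero => exact core_cont
    | succ n => exact piece_cont _ n 1
  · intro n
    cases n with
    | zero => exact core_inj
    | succ n => exact piece_inj _ n 1
  · intro n
    cases n with
    | zero => exact hg0
    | succ n => exact cv_glue 1 1 n
  · intro n
    cases n with
    | zero =>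
      intro x hx y hy heq
      have heq' : core x = cv 1 1 0 y := heq
      have e : cv 1 1 0 = piece false 0 1 := by rw [cv]; rfl
      have hy0 : y = 0 := by
        apply spoke_start 0 1 hy
        rw [← e, ← heq']; exact core_lev hx
      refine ⟨?_, hy0⟩
      rw [hy0, ← hg0] at heq'
      exact core_inj hx ⟨zero_le_one, le_rfl⟩ heq'
    | succ n => exact cv_adj 1 1 n
  · intro n m hnm
    cases n with
    | zero =>
      obtain ⟨m, rfl⟩ : ∃ m', m = m' + 2 := ⟨m - 2, by omega⟩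
      intro x hx y hy heq
      have heq' : core x = cv 1 1 (m+1) y := heq
      have h1 := core_lev hx
      have h2 : 6 ≤ lev (m+1) (cv 1 1 (m+1) y) := (piece_lev _ (m+1) 1 hy).1
      rw [← heq'] at h2
      have h3 := lev_lt 0 (m+1) (by omega) (core x)
      linarith
    | succ n =>
      obtain ⟨m, rfl⟩ : ∃ m', m = m' + 1 := ⟨m - 1, by omega⟩
      exact cv_far 1 1 1 1 n m (by omega)
  · intro n x hx
    cases n with
    | zero => simp
    | succ n =>
      have : 6 * 5 ^ n ≤ ‖cv 1 1 n x‖ := (piece_lev (decide ((n + 1) % 2 = 0)) n 1 hx).2.2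
      have h5 := five_pow_ge n
      change ((n+1:ℕ):ℝ) ≤ ‖cv 1 1 n x‖
      push_cast
      nlinarith [Nat.cast_nonneg (α := ℝ) n]

end Pool.Agent.R495.SP
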