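import Mathlib

namespace Pool.Agent.R495.SP

open Set Filter Topology

/-- Concatenation of the pieces `f 0, f 1, ...`, each used on `[0,1)`. -/
noncomputable def glue {X : Type*} (f : ℕ → ℝ → X) (t : ℝ) : X := f ⌊t⌋₊ (t - ⌊t⌋₊)

theorem glue_continuousOn {X : Type*} [TopologicalSpace X] (f : ℕ → ℝ → X)
    (hc : ∀ n, ContinuousOn (f n) (Icc 0 1)) (hg : ∀ n, f n 1 = f (n+1) 0) :
    ContinuousOn (glue f) (Ici 0) := by
  have h1 : ∀ n : ℕ, ContinuousOn (glue f) (Icc (n:ℝ) (n+1)) := by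
    intro n
    have h2 : ContinuousOn (fun t : ℝ => f n (t - n)) (Icc (n:ℝ) (n+1)) := by
      refine (hc n).comp (by fun_prop) ?_
      intro t ht
      simp only [mem_Icc] at ht ⊢
      constructor <;> linarith [ht.1, ht.2]
    refine h2.congr ?_
    intro t ht
    rcases eq_or_lt_of_le ht.2 with h | h
    · subst h
      have : ⌊((n:ℝ)+1)⌋₊ = n+1 := by
        rw [show ((n:ℝ)+1) = ((n+1 : ℕ):ℝ) by push_cast; ring]; exact Nat.floor_natCast _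
      simp only [glue, this]
      push_cast
      rw [show (n:ℝ)+1-(n+1) = 0 by ring, show (n:ℝ)+1-n = 1 by ring]
      exact (hg n).symm
    · have : ⌊t⌋₊ = n := by
        rw [Nat.floor_eq_iff (le_trans (Nat.cast_nonneg n) ht.1)]
        exact ⟨ht.1, h⟩
      simp only [glue, this]
  have h3 : ∀ N : ℕ, ContinuousOn (glue f) (Icc (0:ℝ) N) := by
    intro N
    induction N with
    | zero => simp
    | succ N ih =>
      have : Icc (0:ℝ) ((N+1 : ℕ):ℝ) = Icc (0:ℝ) N ∪ Icc (N:ℝ) (N+1) := by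
        rw [Icc_union_Icc_eq_Icc (Nat.cast_nonneg N) (by linarith)]; push_cast; rfl
      rw [this]
      exact ih.union_of_isClosed (h1 N) isClosed_Icc isClosed_Icc
  intro t ht
  obtain ⟨N, hN⟩ := exists_nat_gt t
  refine ((h3 N) t ⟨ht, hN.le⟩).mono_of_mem_nhdsWithin ?_
  have : Ici (0:ℝ) ∩ Iio (N:ℝ) ⊆ Icc (0:ℝ) N := fun x hx => ⟨hx.1, le_of_lt hx.2⟩
  exact mem_of_superset (inter_mem self_mem_nhdsWithin
    (mem_nhdsWithin_of_mem_nhds (Iio_mem_nhds hN))) this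

theorem frac_mem {t : ℝ} (ht : 0 ≤ t) : 0 ≤ t - ⌊t⌋₊ ∧ t - ⌊t⌋₊ < 1 := by
  have h1 := Nat.floor_le ht
  have h2 := Nat.lt_floor_add_one t
  constructor <;> linarith

theorem ray_of_pieces (γ : ℕ → ℝ → ℂ) (R : ℕ → ℝ)
    (hc : ∀ n, ContinuousOn (γ n) (Icc 0 1)) (hi : ∀ n, InjOn (γ n) (Icc 0 1))
    (hg : ∀ n, γ n 1 = γ (n+1) 0)
    (hd1 : ∀ n, ∀ x ∈ Icc (0:ℝ) 1, ∀ y ∈ Icc (0:ℝ) 1, γ n x = γ (n+1) y → x = 1 ∧ y = 0)
    (hd2 : ∀ n m, n + 2 ≤ m → ∀ x ∈ Icc (0:ℝ) 1, ∀ y ∈ Icc (0:ℝ) 1, γ n x ≠ γ m y)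
    (hR : Tendsto R atTop atTop) (hr : ∀ n, ∀ x ∈ Icc (0:ℝ) 1, R n ≤ ‖γ n x‖) :
    Nonempty ((⋃ n, γ n '' Icc (0:ℝ) 1 : Set ℂ) ≃ₜ Ici (0:ℝ)) ∧
      ¬ Bornology.IsBounded (⋃ n, γ n '' Icc (0:ℝ) 1) := by
  have hcont := glue_continuousOn γ hc hg
  let g : Ici (0:ℝ) → ℂ := fun t => glue γ t
  have hgc : Continuous g := by
    rw [continuousOn_iff_continuous_domRestrict] at hcont
    exact hcont
  have hne : ∀ t t' : ℝ, 0 ≤ t → 0 ≤ t' → ⌊t⌋₊ < ⌊t'⌋₊ → glue γ t ≠ glue γ t' := by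
    intro t t' ht ht' hlt heq
    have f1 := frac_mem ht
    have f2 := frac_mem ht'
    simp only [glue] at heq
    rcases Nat.lt_or_ge (⌊t⌋₊ + 1) ⌊t'⌋₊ with h | h
    · exact hd2 _ _ h _ ⟨f1.1, f1.2.le⟩ _ ⟨f2.1, f2.2.le⟩ heq
    · have h' : ⌊t'⌋₊ = ⌊t⌋₊ + 1 := by omega
      rw [h'] at heq
      have f2' := f2
      rw [h'] at f2'
      have := hd1 _ _ ⟨f1.1, f1.2.le⟩ _ ⟨f2'.1, f2'.2.le⟩ heq
      exact absurd this.1 (ne_of_lt f1.2)
  have hinj : Function.Injective g := by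
    rintro ⟨t, ht⟩ ⟨t', ht'⟩ heq
    have ht0 : (0:ℝ) ≤ t := ht
    have ht0' : (0:ℝ) ≤ t' := ht'
    change glue γ t = glue γ t' at heq
    rcases lt_trichotomy ⌊t⌋₊ ⌊t'⌋₊ with h | h | h
    · exact absurd heq (hne t t' ht0 ht0' h)
    · have f1 := frac_mem ht0
      have f2 := frac_mem ht0'
      simp only [glue] at heq
      rw [← h] at heq f2
      have := hi _ ⟨f1.1, f1.2.le⟩ ⟨f2.1, f2.2.le⟩ heq
      apply Subtype.ext
      change t = t'
      linarith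
    · exact absurd heq.symm (hne t' t ht0' ht0 h)
  have hrange : range g = ⋃ n, γ n '' Icc (0:ℝ) 1 := by
    ext z
    simp only [mem_range, mem_iUnion, mem_image, Subtype.exists]
    constructor
    · rintro ⟨t, ht, rfl⟩
      have f1 := frac_mem (show (0:ℝ) ≤ t from ht)
      exact ⟨⌊t⌋₊, t - ⌊t⌋₊, ⟨f1.1, f1.2.le⟩, rfl⟩
    · rintro ⟨n, x, ⟨hx0, hx1⟩, rfl⟩
      rcases eq_or_lt_of_le hx1 with h | h
      · subst h
        refine ⟨((n+1:ℕ):ℝ), mem_Ici.2 (Nat.cast_nonneg _), ?_⟩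
        change glue γ ((n+1:ℕ):ℝ) = _
        simp only [glue, Nat.floor_natCast, sub_self]
        exact (hg n).symm
      · refine ⟨(n:ℝ) + x, mem_Ici.2 (add_nonneg (Nat.cast_nonneg _) hx0), ?_⟩
        change glue γ ((n:ℝ) + x) = _
        have : ⌊(n:ℝ) + x⌋₊ = n := by
          rw [Nat.floor_eq_iff (by positivity)]
          constructor <;> linarith
        simp only [glue, this, add_sub_cancel_left]
  have hproper : IsProperMap g := by
    rw [isProperMap_iff_isCompact_preimage]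
    refine ⟨hgc, fun K hK => ?_⟩
    obtain ⟨B, hB⟩ := hK.isBounded.exists_norm_le
    obtain ⟨N, hN⟩ := (eventually_atTop.1 (hR.eventually_gt_atTop B))
    have hsub : g ⁻¹' K ⊆ Subtype.val ⁻¹' (Icc (0:ℝ) N) := by
      rintro ⟨t, ht⟩ htK
      have ht0 : (0:ℝ) ≤ t := ht
      refine ⟨ht0, ?_⟩
      change t ≤ N
      by_contra hlt
      push Not at hlt
      have h1 : N ≤ ⌊t⌋₊ := Nat.le_floor hlt.le
      have h2 := hN _ h1
      have f1 := frac_mem ht0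
      have h3 := hr ⌊t⌋₊ (t - ⌊t⌋₊) ⟨f1.1, f1.2.le⟩
      have h4 : ‖glue γ t‖ ≤ B := hB _ htK
      simp only [glue] at h4
      linarith
    have hcomp : IsCompact (Subtype.val ⁻¹' (Icc (0:ℝ) N) : Set (Ici (0:ℝ))) :=
      (isClosed_Ici.isClosedEmbedding_subtypeVal).isCompact_preimage isCompact_Icc
    exact hcomp.of_isClosed_subset (hK.isClosed.preimage hgc) hsub
  have hce : IsClosedEmbedding g :=
    IsClosedEmbedding.of_continuous_injective_isClosedMap hgc hinj hproper.isClosedMap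
  refine ⟨?_, ?_⟩
  · rw [← hrange]
    exact ⟨hce.isEmbedding.toHomeomorph.symm⟩
  · intro hb
    obtain ⟨B, hB⟩ := hb.exists_norm_le
    obtain ⟨N, hN⟩ := (hR.eventually_gt_atTop B).exists
    have h1 := hr N 0 ⟨le_refl _, zero_le_one⟩
    have h2 := hB (γ N 0) (mem_iUnion.2 ⟨N, 0, ⟨le_refl _, zero_le_one⟩, rfl⟩)
    linarith

end Pool.Agent.R495.SP
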