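import Pool.Agent.R495.SP.Cover

namespace Pool.Agent.R495.SP

open Set Filter Topology Complex

/-- the union of all marks -/
def E : Set ℂ := {z | ∃ t : Idx, t.valid ∧ ∃ w ∈ Leg, tm t w = z}

theorem pl_mod (n k : ℕ) (z : ℂ) : pl n k z = pl n (k % 4) z := by
  rw [pl, pl]
  congr 2
  conv_lhs => rw [← Nat.div_add_mod k 4, pow_add, pow_mul, rot4, one_pow, one_mul]

theorem sn_cast (n : ℕ) : ((sn n : ℕ) : ℝ) = 12 * 5 ^ n := by simp [sn]

/-- the point of the tile lattice in the coordinates of the big triangle -/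
theorem D_eq (n : ℕ) (a b : ℝ) :
    (⟨-6, 6⟩ : ℂ) + (⟨4 * a, 3 * b⟩ : ℂ) / 5 ^ n = D (a / sn n) (b / sn n) := by
  have e5 : ((5:ℂ) ^ n) = (((5:ℝ) ^ n : ℝ) : ℂ) := by push_cast; rfl
  have h5 : (0:ℝ) < 5 ^ n := by positivity
  rw [e5, sn_cast]
  apply Complex.ext
  · simp only [D, add_re, Complex.div_ofReal_re]; field_simp; ring
  · simp only [D, add_im, Complex.div_ofReal_im]; field_simp; ring

theorem line_mem (n k j : ℕ) (hj : j < sn n) (ξ : ℝ) (h0 : 0 ≤ ξ) (h1 : ξ + j / sn n ≤ 1) :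
    pl n k (D ξ (j / sn n)) ∈ E := by
  have hs : (0:ℝ) < sn n := by exact_mod_cast sn_pos n
  obtain ⟨i, hi, i1, i2⟩ := slot (sn n - j) (by omega) (ξ * sn n) (by positivity) (by
    rw [Nat.cast_sub hj.le]
    have : (ξ + j / sn n) * sn n ≤ 1 * sn n := mul_le_mul_of_nonneg_right h1 hs.le
    rw [add_mul, div_mul_cancel₀ _ hs.ne'] at this
    linarith)
  refine ⟨⟨n + 1, k % 4, i, j, false⟩, ⟨Nat.mod_lt _ (by norm_num), ?_⟩,
    ⟨4 * (ξ * sn n - i), 0⟩, ⟨rfl, by simp only; linarith, by simp only; linarith⟩, ?_⟩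
  · simp only [Bool.false_eq_true, if_false]; omega
  · rw [pl_mod n k]
    simp only [tm, loc, Bool.false_eq_true, if_false]
    congr 1
    have : (⟨4 * (i:ℝ), 3 * (j:ℝ)⟩ : ℂ) + ⟨4 * (ξ * sn n - i), 0⟩ = ⟨4 * (ξ * sn n), 3 * j⟩ := by
      apply Complex.ext
      · simp; ring
      · simp
    rw [this, D_eq, mul_div_cancel_right₀ _ hs.ne']

theorem base_mem (n k : ℕ) (ξ : ℝ) (h0 : 0 ≤ ξ) (h1 : ξ ≤ 1) : pl n k (D ξ 0) ∈ E := by
  have := line_mem n k 0 (sn_pos n) ξ h0 (by simpa using h1)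
  simpa using this

theorem left_mem (n k : ℕ) (η : ℝ) (h0 : 0 ≤ η) (h1 : η ≤ 1) : pl n k (D 0 η) ∈ E := by
  have h := base_mem n (k + 3) ((1 + 3 * η) / 4) (by positivity) (by linarith)
  have e : pl n (k + 3) (D ((1 + 3 * η) / 4) 0) = pl n k (D 0 η) := by
    rw [pl, pl, pow_add, mul_assoc, mul_assoc, mul_assoc, rot3]
    congr 2
    apply Complex.ext
    · simp [D]
    · simp [D]; ring
  rwa [e] at h

theorem hyp_mem (n k : ℕ) (η : ℝ) (h0 : 0 ≤ η) (h1 : η ≤ 1) : pl n k (D (1 - η) η) ∈ E := by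
  have h := base_mem (n + 1) k ((1 - η) / 4) (by linarith) (by linarith)
  have e : pl (n + 1) k (D ((1 - η) / 4) 0) = pl n k (D (1 - η) η) := by
    rw [pl, pl, pow_succ]
    have : al * D ((1 - η) / 4) 0 = D (1 - η) η := by
      rw [mul_al]
      apply Complex.ext
      · simp [D]; ring
      · simp [D]; ring
    rw [← this]; ring
  rwa [e] at h

theorem cv_mem (ε k n : ℕ) {τ : ℝ} (h : τ ∈ Icc (0:ℝ) 1) : cv ε k n τ ∈ E := by
  rw [cv]
  generalize decide ((n + ε) % 2 = 0) = b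
  cases b
  · simp only [piece, Bool.false_eq_true, if_false]
    exact left_mem n k τ h.1 h.2
  · simp only [piece, if_true]
    have h1 := sη_mem (sn_pos n) h
    have h2 := sξ_mem (sn_pos n) h
    rcases s_cases (sn_pos n) h with ⟨j, hj, e⟩ | e | e
    · rw [e] at h2 ⊢
      exact line_mem n k j hj _ h2.1 h2.2
    · rw [e]; exact left_mem n k _ h1.1 h1.2
    · rw [show sξ (sn n) τ = 1 - sη (sn n) τ by linarith]
      exact hyp_mem n k _ h1.1 h1.2

theorem core_mem {τ : ℝ} (h : τ ∈ Icc (0:ℝ) 1) : core τ ∈ E := by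
  have h0 : (0:ℝ) ≤ 6 * τ := by have := h.1; positivity
  have hW := W_mem h0
  have hY0 := Y_nonneg h0
  have hY1 := core_Y_le h
  -- the right side and the left side
  have right : ∀ y : ℝ, 0 ≤ y → y ≤ 3 → (⟨-6 + 12 * 1, -3 + 3 * y⟩ : ℂ) ∈ E := by
    intro y hy0 hy1
    have := base_mem 0 1 ((9 - 3 * y) / 48) (by linarith) (by linarith)
    have e : pl 0 1 (D ((9 - 3 * y) / 48) 0) = ⟨-6 + 12 * 1, -3 + 3 * y⟩ := by
      rw [pl, pow_zero, one_mul, rot1]
      apply Complex.ext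
      · simp [D]; norm_num
      · simp [D]; ring
    rwa [e] at this
  have left : ∀ y : ℝ, 0 ≤ y → y ≤ 3 → (⟨-6 + 12 * 0, -3 + 3 * y⟩ : ℂ) ∈ E := by
    intro y hy0 hy1
    have := base_mem 0 3 ((3 + 3 * y) / 48) (by linarith) (by linarith)
    have e : pl 0 3 (D ((3 + 3 * y) / 48) 0) = ⟨-6 + 12 * 0, -3 + 3 * y⟩ := by
      rw [pl, pow_zero, one_mul, rot3]
      apply Complex.ext
      · simp [D]
      · simp [D]; ring
    rwa [e] at this
  rcases eq_or_lt_of_le h.2 with e1 | e1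
  · rw [e1, core_one]; exact base_mem 0 1 0 le_rfl zero_le_one
  · have hY2 := Y_lt h0 3 (by push_cast; linarith)
    obtain ⟨j, θ, t0, t1, hh | hh⟩ := WY_cases h0
    · have hj : j < 3 := by
        rw [hh.2.1] at hY2; exact_mod_cast hY2
      obtain ⟨i, hi, i1, i2⟩ := slot 3 (by norm_num) (3 * W (6 * τ)) (by linarith [hW.1])
        (by push_cast; linarith [hW.2])
      refine ⟨⟨0, 0, i, j + 1, false⟩, ⟨rfl, hi, by simp only; omega⟩,
        ⟨12 * W (6 * τ) - 4 * i, 0⟩, ⟨rfl, by simp only; linarith, by simp only; linarith⟩, ?_⟩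
      simp only [tm, loc, Bool.false_eq_true, if_false, core, hh.2.1]
      apply Complex.ext
      · simp
      · simp; ring
    · rcases hh.2.2 with h' | h'
      · rw [core, h'.2]; exact right _ hY0 hY1
      · rw [core, h'.2]; exact left _ hY0 hY1

/-- the eight curves -/
noncomputable def Cset (q : Fin 8) : Set ℂ :=
  if q = 5 then ⋃ n, cc n '' Icc (0:ℝ) 1 else ⋃ n, cv (q.val / 4) (q.val % 4) n '' Icc (0:ℝ) 1

theorem Cset_sub (q : Fin 8) : Cset q ⊆ E := by
  intro z hz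
  rw [Cset] at hz
  split_ifs at hz with h
  · rw [mem_iUnion] at hz
    obtain ⟨n, τ, hτ, rfl⟩ := hz
    cases n with
    | zero => exact core_mem hτ
    | succ n => exact cv_mem 1 1 n hτ
  · rw [mem_iUnion] at hz
    obtain ⟨n, τ, hτ, rfl⟩ := hz
    exact cv_mem _ _ n hτ

theorem Cset_ray (q : Fin 8) : Nonempty (Cset q ≃ₜ Ici (0:ℝ)) ∧ ¬ Bornology.IsBounded (Cset q) := by
  by_cases h : q = 5
  · have : Cset q = ⋃ n, cc n '' Icc (0:ℝ) 1 := by rw [Cset, if_pos h]
    rw [this]; exact cc_ray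
  · have : Cset q = ⋃ n, cv (q.val / 4) (q.val % 4) n '' Icc (0:ℝ) 1 := by rw [Cset, if_neg h]
    rw [this]; exact cv_ray _ _

theorem cv_in_Cset (ε k n : ℕ) (hε : ε < 2) (hk : k < 4) {τ : ℝ} (h : τ ∈ Icc (0:ℝ) 1) :
    ∃ q, cv ε k n τ ∈ Cset q := by
  refine ⟨⟨4 * ε + k, by omega⟩, ?_⟩
  rw [Cset]
  split_ifs with h5
  · have h5' : 4 * ε + k = 5 := congrArg Fin.val h5
    have e1 : ε = 1 := by omega
    have e2 : k = 1 := by omega
    subst e1 e2
    exact mem_iUnion.2 ⟨n + 1, τ, h, rfl⟩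
  · have e1 : (4 * ε + k) / 4 = ε := by omega
    have e2 : (4 * ε + k) % 4 = k := by omega
    refine mem_iUnion.2 ⟨n, τ, h, ?_⟩
    simp only [e1, e2]

theorem line_in_Cset (n k j : ℕ) (hk : k < 4) (hj : j < sn n) (ξ : ℝ) (h0 : 0 ≤ ξ)
    (h1 : ξ + j / sn n ≤ 1) : ∃ q, pl n k (D ξ (j / sn n)) ∈ Cset q := by
  obtain ⟨τ, hτ, e1, e2⟩ := s_surj (sn_pos n) j hj ξ h0 h1
  obtain ⟨q, hq⟩ := cv_in_Cset (n % 2) k n (Nat.mod_lt _ (by norm_num)) hk hτ
  refine ⟨q, ?_⟩
  have : cv (n % 2) k n τ = pl n k (D ξ (j / sn n)) := by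
    rw [cv, show decide ((n + n % 2) % 2 = 0) = true from by
      rw [decide_eq_true_iff]; omega]
    simp only [piece, if_true, e1, e2]
  rwa [this] at hq

theorem core_in_Cset (x : ℝ) (h0 : -6 ≤ x) (h1 : x ≤ 6) (j : ℕ) (hj : j < 3) :
    ∃ q, (⟨x, -3 + 3 * (j:ℝ)⟩ : ℂ) ∈ Cset q := by
  refine ⟨5, ?_⟩
  rw [Cset, if_pos rfl]
  obtain ⟨t, a, b, c, d⟩ := WY_surj j ((x + 6) / 12) (by linarith) (by linarith)
  have hj' : (j:ℝ) + 1 ≤ 3 := by exact_mod_cast hj
  have hj0 : (0:ℝ) ≤ j := Nat.cast_nonneg j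
  refine mem_iUnion.2 ⟨0, t / 6, ⟨by linarith, by linarith⟩, ?_⟩
  change core (t / 6) = _
  rw [core, show 6 * (t / 6) = t by ring, c, d]
  apply Complex.ext
  · simp only; ring
  · rfl

theorem E_sub {z : ℂ} (hz : z ∈ E) : ∃ q, z ∈ Cset q := by
  obtain ⟨⟨lv, k, i, j, up⟩, hv, w, ⟨w0, w1, w2⟩, rfl⟩ := hz
  have hw : w = ⟨w.re, 0⟩ := by apply Complex.ext <;> simp [w0]
  cases lv with
  | zero =>
    obtain ⟨hk, hi, hj⟩ := hv
    simp only at hk hi hj
    -- the point is `⟨x, -6 + 3 * b⟩` with `b ≤ 4`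
    have key : ∀ (x : ℝ) (b : ℕ), -6 ≤ x → x ≤ 6 → b ≤ 4 → ∃ q, (⟨x, -6 + 3 * (b:ℝ)⟩ : ℂ) ∈ Cset q := by
      intro x b hx0 hx1 hb
      rcases Nat.eq_zero_or_pos b with h0 | h0
      · obtain ⟨q, hq⟩ := line_in_Cset 0 2 0 (by norm_num) (sn_pos 0) ((6 - x) / 48) (by linarith)
          (by simp; linarith)
        refine ⟨q, ?_⟩
        have : pl 0 2 (D ((6 - x) / 48) ((0:ℕ) / sn 0)) = ⟨x, -6 + 3 * (b:ℝ)⟩ := by
          rw [pl, pow_zero, one_mul, rot2, h0]
          apply Complex.ext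
          · simp [D]; ring
          · simp [D]
        rwa [this] at hq
      · rcases Nat.lt_or_ge b 4 with h4 | h4
        · obtain ⟨q, hq⟩ := core_in_Cset x hx0 hx1 (b - 1) (by omega)
          refine ⟨q, ?_⟩
          have : (((b - 1 : ℕ)) : ℝ) = b - 1 := by rw [Nat.cast_sub (by omega)]; simp
          rw [this, show (-3 + 3 * ((b:ℝ) - 1)) = -6 + 3 * b by ring] at hq
          exact hq
        · have hb4 : b = 4 := by omega
          obtain ⟨q, hq⟩ := line_in_Cset 0 0 0 (by norm_num) (sn_pos 0) ((x + 6) / 48) (by linarith)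
            (by simp; linarith)
          refine ⟨q, ?_⟩
          have : pl 0 0 (D ((x + 6) / 48) ((0:ℕ) / sn 0)) = ⟨x, -6 + 3 * (b:ℝ)⟩ := by
            rw [pl, pow_zero, one_mul, pow_zero, one_mul, hb4]
            apply Complex.ext
            · simp [D]; ring
            · simp [D]; norm_num
          rwa [this] at hq
    have hi' : (i:ℝ) + 1 ≤ 3 := by exact_mod_cast hi
    have hi0 : (0:ℝ) ≤ i := Nat.cast_nonneg i
    cases up
    · obtain ⟨q, hq⟩ := key (-6 + (4 * i + w.re)) j (by linarith) (by linarith) (by omega)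
      refine ⟨q, ?_⟩
      have : tm ⟨0, k, i, j, false⟩ w = ⟨-6 + (4 * i + w.re), -6 + 3 * (j:ℝ)⟩ := by
        simp only [tm, loc, Bool.false_eq_true, if_false]
        apply Complex.ext <;> simp [w0]
      rwa [this]
    · obtain ⟨q, hq⟩ := key (-6 + (4 * (i + 1) - w.re)) (j + 1) (by linarith) (by linarith) (by omega)
      refine ⟨q, ?_⟩
      have : tm ⟨0, k, i, j, true⟩ w = ⟨-6 + (4 * (i + 1) - w.re), -6 + 3 * ((j + 1 : ℕ):ℝ)⟩ := by
        simp only [tm, loc, if_true]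
        apply Complex.ext <;> simp [w0]
      rwa [this]
  | succ n =>
    obtain ⟨hk, hv⟩ := hv
    simp only at hk hv
    have hs : (0:ℝ) < sn n := by exact_mod_cast sn_pos n
    have hi0 : (0:ℝ) ≤ i := Nat.cast_nonneg i
    cases up
    · simp only [Bool.false_eq_true, if_false] at hv
      have hv' : (i:ℝ) + j + 1 ≤ sn n := by exact_mod_cast hv
      have e : tm ⟨n + 1, k, i, j, false⟩ w = pl n k (D ((i + w.re / 4) / sn n) (j / sn n)) := by
        simp only [tm, loc, Bool.false_eq_true, if_false]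
        rw [← D_eq]
        congr 3
        apply Complex.ext
        · simp; ring
        · simp [w0]
      rw [e]
      refine line_in_Cset n k j hk (by omega) _ (by positivity) ?_
      rw [← add_div, div_le_one hs]
      linarith
    · simp only [if_true] at hv
      have hv' : (i:ℝ) + j + 2 ≤ sn n := by exact_mod_cast hv
      have e : tm ⟨n + 1, k, i, j, true⟩ w
          = pl n k (D ((i + 1 - w.re / 4) / sn n) (((j + 1 : ℕ):ℝ) / sn n)) := by
        simp only [tm, loc, if_true]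
        rw [← D_eq]
        congr 3
        apply Complex.ext
        · simp; ring
        · simp [w0]
      rw [e]
      refine line_in_Cset n k (j + 1) hk (by omega) _ (div_nonneg (by linarith) hs.le) ?_
      rw [← add_div, div_le_one hs]
      push_cast
      linarith

theorem E_eq : E = ⋃ q, Cset q := by
  ext z
  rw [mem_iUnion]
  exact ⟨E_sub, fun ⟨q, hq⟩ => Cset_sub q hq⟩

end Pool.Agent.R495.SP
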