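import Pool.Agent.R495.SP.Geom

namespace Pool.Agent.R495.SP

open Set Filter Topology Complex

/-- the prototile: the right triangle with vertices `0`, `4`, `3i` -/
def T : Set ℂ := {z | 0 ≤ z.re ∧ 0 ≤ z.im ∧ 3 * z.re + 4 * z.im ≤ 12}

def To : Set ℂ := {z | 0 < z.re ∧ 0 < z.im ∧ 3 * z.re + 4 * z.im < 12}

/-- the marked arc: the long leg -/
def Leg : Set ℂ := {z | z.im = 0 ∧ 0 ≤ z.re ∧ z.re ≤ 4}

/-- the point `w` of the tile number `(i, j, up)` of the quadrant -/
noncomputable def loc (i j : ℕ) (up : Bool) (w : ℂ) : ℂ :=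
  if up then ⟨4 * (i + 1), 3 * (j + 1)⟩ - w else ⟨4 * i, 3 * j⟩ + w

/-- indices of the tiles; `lv = 0` is the core square, `lv = n + 1` the annulus number `n` -/
structure Idx where
  lv : ℕ
  k : ℕ
  i : ℕ
  j : ℕ
  up : Bool

def Idx.valid (t : Idx) : Prop := match t.lv with
  | 0 => t.k = 0 ∧ t.i < 3 ∧ t.j < 4
  | n + 1 => t.k < 4 ∧ t.i + t.j + (if t.up then 2 else 1) ≤ sn n

/-- the placement of the tile `t` -/
noncomputable def tm (t : Idx) (w : ℂ) : ℂ := match t.lv with
  | 0 => ⟨-6, -6⟩ + loc t.i t.j t.up w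
  | n + 1 => pl n t.k (⟨-6, 6⟩ + loc t.i t.j t.up w / 5 ^ n)

theorem exists_iso (c d : ℂ) (h : ‖c‖ = 1) : ∃ σ : ℂ ≃ᵢ ℂ, ∀ w, σ w = c * w + d := by
  let a : Circle := ⟨c, by simp [Submonoid.unitSphere, h]⟩
  refine ⟨(rotation a).toIsometryEquiv.trans (IsometryEquiv.addRight d), fun w => ?_⟩
  change rotation a w + d = c * w + d
  rw [rotation_apply]

theorem tm_affine (t : Idx) : ∃ c d : ℂ, ‖c‖ = 1 ∧ ∀ w, tm t w = c * w + d := by
  obtain ⟨lv, k, i, j, up⟩ := t
  cases lv with
  | zero =>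
    cases up
    · exact ⟨1, ⟨-6, -6⟩ + ⟨4 * i, 3 * j⟩, by simp, fun w => by simp [tm, loc]; ring⟩
    · exact ⟨-1, ⟨-6, -6⟩ + ⟨4 * (i + 1), 3 * (j + 1)⟩, by simp, fun w => by simp [tm, loc]; ring⟩
  | succ n =>
    have hc : ‖al ^ n * (-I) ^ k / 5 ^ n‖ = 1 := by
      rw [norm_div, norm_mul, norm_pow, norm_pow, norm_al, norm_neg, Complex.norm_I, one_pow,
        mul_one, norm_pow]
      simp
    cases up
    · refine ⟨al ^ n * (-I) ^ k / 5 ^ n, pl n k (⟨-6, 6⟩ + ⟨4 * i, 3 * j⟩ / 5 ^ n), hc, fun w => ?_⟩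
      simp only [tm, loc, pl, Bool.false_eq_true, if_false]; ring
    · refine ⟨-(al ^ n * (-I) ^ k / 5 ^ n), pl n k (⟨-6, 6⟩ + ⟨4 * (i+1), 3 * (j+1)⟩ / 5 ^ n),
        by rw [norm_neg, hc], fun w => ?_⟩
      simp only [tm, loc, pl, if_true]; ring

theorem exists_tiso (t : Idx) : ∃ σ : ℂ ≃ᵢ ℂ, ∀ w, σ w = tm t w := by
  obtain ⟨c, d, h, h'⟩ := tm_affine t
  obtain ⟨σ, hσ⟩ := exists_iso c d h
  exact ⟨σ, fun w => by rw [hσ, h']⟩

/-- the placement of the tile `t` as an isometry of the plane -/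
noncomputable def tiso (t : Idx) : ℂ ≃ᵢ ℂ := Classical.choose (exists_tiso t)

theorem tiso_apply (t : Idx) (w : ℂ) : tiso t w = tm t w := Classical.choose_spec (exists_tiso t) w

/-! ### The prototile is a closed disk -/

theorem T_closed : IsClosed T := by
  have h1 : IsClosed {z : ℂ | 0 ≤ z.re} := isClosed_le continuous_const Complex.continuous_re
  have h2 : IsClosed {z : ℂ | 0 ≤ z.im} := isClosed_le continuous_const Complex.continuous_im
  have h3 : IsClosed {z : ℂ | 3 * z.re + 4 * z.im ≤ 12} :=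
    isClosed_le ((continuous_const.mul Complex.continuous_re).add
      (continuous_const.mul Complex.continuous_im)) continuous_const
  exact h1.inter (h2.inter h3)

theorem T_convex : Convex ℝ T := by
  intro z hz w hw a b ha hb hab
  obtain ⟨z1, z2, z3⟩ := hz
  obtain ⟨w1, w2, w3⟩ := hw
  refine ⟨?_, ?_, ?_⟩
  · simp only [add_re, real_smul, mul_re, ofReal_re, ofReal_im, zero_mul, sub_zero]
    positivity
  · simp only [add_im, real_smul, mul_im, ofReal_re, ofReal_im, zero_mul, add_zero]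
    positivity
  · simp only [add_re, real_smul, mul_re, ofReal_re, ofReal_im, zero_mul, sub_zero, add_im, mul_im,
      add_zero]
    nlinarith

theorem T_bounded : Bornology.IsBounded T := by
  rw [isBounded_iff_forall_norm_le]
  refine ⟨7, fun z hz => ?_⟩
  obtain ⟨z1, z2, z3⟩ := hz
  have h := Complex.norm_le_abs_re_add_abs_im z
  rw [abs_of_nonneg z1, abs_of_nonneg z2] at h
  linarith

theorem To_open : IsOpen To := by
  have h1 : IsOpen {z : ℂ | 0 < z.re} := isOpen_lt continuous_const Complex.continuous_re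
  have h2 : IsOpen {z : ℂ | 0 < z.im} := isOpen_lt continuous_const Complex.continuous_im
  have h3 : IsOpen {z : ℂ | 3 * z.re + 4 * z.im < 12} :=
    isOpen_lt ((continuous_const.mul Complex.continuous_re).add
      (continuous_const.mul Complex.continuous_im)) continuous_const
  exact h1.inter (h2.inter h3)

theorem To_sub : To ⊆ T := fun _ h => ⟨h.1.le, h.2.1.le, h.2.2.le⟩

theorem interior_T_nonempty : (interior T).Nonempty :=
  ⟨⟨1, 1⟩, interior_maximal To_sub To_open (by refine ⟨?_, ?_, ?_⟩ <;> norm_num)⟩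

theorem interior_T_sub : interior T ⊆ To := by
  intro z hz
  rw [mem_interior_iff_mem_nhds, Metric.mem_nhds_iff] at hz
  obtain ⟨ε, he, hb⟩ := hz
  have key : ∀ v : ℂ, ‖v‖ < ε → z + v ∈ T := by
    intro v hv
    apply hb
    rw [Metric.mem_ball, dist_eq_norm, add_sub_cancel_left]
    exact hv
  have h1 := key (((-(ε/2) : ℝ)) : ℂ) (by
    rw [Complex.norm_real, Real.norm_eq_abs, abs_neg, abs_of_pos (by linarith)]; linarith)
  have h2 := key ((((-(ε/2) : ℝ)) : ℂ) * I) (by
    rw [norm_mul, Complex.norm_I, mul_one, Complex.norm_real, Real.norm_eq_abs, abs_neg,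
      abs_of_pos (by linarith)]; linarith)
  have h3 := key ((((ε/2) : ℝ)) : ℂ) (by
    rw [Complex.norm_real, Real.norm_eq_abs, abs_of_pos (by linarith)]; linarith)
  have a1 := h1.1
  have a2 := h2.2.1
  have a3 := h3.2.2
  simp only [add_re, ofReal_re] at a1
  simp at a2
  simp only [add_re, ofReal_re, add_im, ofReal_im, add_zero] at a3
  exact ⟨by linarith, by linarith, by linarith⟩

theorem T_disk : Nonempty (T ≃ₜ Metric.closedBall (0:ℂ) 1) := by
  obtain ⟨h, -, h2, -⟩ := exists_homeomorph_image_interior_closure_frontier_eq_unitBall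
    T_convex interior_T_nonempty T_bounded
  rw [T_closed.closure_eq] at h2
  rw [← h2]
  exact ⟨h.image T⟩

theorem leg_arc : Nonempty (Leg ≃ₜ Set.Icc (0:ℝ) 1) := by
  refine ⟨{
    toFun := fun z => ⟨z.1.re / 4, ⟨by have := z.2.2.1; positivity, by
      rw [div_le_one (by norm_num)]; exact z.2.2.2⟩⟩
    invFun := fun x => ⟨((4 * x.1 : ℝ) : ℂ), ⟨Complex.ofReal_im _, by
      rw [Complex.ofReal_re]; have := x.2.1; positivity, by
      rw [Complex.ofReal_re]; have := x.2.2; linarith⟩⟩
    left_inv := ?_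
    right_inv := ?_
    continuous_toFun := ?_
    continuous_invFun := ?_ }⟩
  · rintro ⟨z, h1, h2, h3⟩
    apply Subtype.ext
    apply Complex.ext
    · simp; ring
    · simp [h1]
  · rintro ⟨x, h1, h2⟩
    apply Subtype.ext
    simp
  · exact Continuous.subtype_mk ((Complex.continuous_re.comp continuous_subtype_val).div_const _) _
  · exact Continuous.subtype_mk (Complex.continuous_ofReal.comp
      (continuous_const.mul continuous_subtype_val)) _

theorem leg_sub : Leg ⊆ T := fun z h => ⟨h.2.1, h.1.ge, by rw [h.1]; linarith [h.2.2]⟩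

/-! ### Disjointness -/

theorem loc_re (i j : ℕ) (up : Bool) (w : ℂ) :
    (loc i j up w).re = if up then 4 * (i + 1) - w.re else 4 * i + w.re := by
  cases up <;> simp [loc]

theorem loc_im (i j : ℕ) (up : Bool) (w : ℂ) :
    (loc i j up w).im = if up then 3 * (j + 1) - w.im else 3 * j + w.im := by
  cases up <;> simp [loc]

theorem loc_det {i j i' j' : ℕ} {up up' : Bool} {w w' : ℂ} (hw : w ∈ To) (hw' : w' ∈ To)
    (h : loc i j up w = loc i' j' up' w') : i = i' ∧ j = j' ∧ up = up' := by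
  have hr := congrArg Complex.re h
  have hi := congrArg Complex.im h
  rw [loc_re, loc_re] at hr
  rw [loc_im, loc_im] at hi
  obtain ⟨w1, w2, w3⟩ := hw
  obtain ⟨v1, v2, v3⟩ := hw'
  have key : ∀ a b : ℕ, (a:ℝ) < b + 1 → (b:ℝ) < a + 1 → a = b := by
    intro a b h1 h2
    have h1' : a < b + 1 := by exact_mod_cast h1
    have h2' : b < a + 1 := by exact_mod_cast h2
    omega
  cases up <;> cases up' <;> simp only [Bool.false_eq_true, if_false, if_true] at hr hi
  · exact ⟨key _ _ (by linarith) (by linarith), key _ _ (by linarith) (by linarith), rfl⟩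
  · exfalso
    have e1 := key i i' (by linarith) (by linarith)
    have e2 := key j j' (by linarith) (by linarith)
    subst e1 e2
    linarith
  · exfalso
    have e1 := key i i' (by linarith) (by linarith)
    have e2 := key j j' (by linarith) (by linarith)
    subst e1 e2
    linarith
  · exact ⟨key _ _ (by linarith) (by linarith), key _ _ (by linarith) (by linarith), rfl⟩

theorem loc_pos {i j : ℕ} {up : Bool} {w : ℂ} (hw : w ∈ To) :
    4 * (i:ℝ) < (loc i j up w).re ∧ (loc i j up w).re < 4 * (i + 1) ∧ 3 * (j:ℝ) < (loc i j up w).im ∧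
    (loc i j up w).im < 3 * (j + 1) ∧
      3 * (loc i j up w).re + 4 * (loc i j up w).im < 12 * (i + j + (if up then 2 else 1)) := by
  rw [loc_re, loc_im]
  obtain ⟨w1, w2, w3⟩ := hw
  cases up
  · simp only [Bool.false_eq_true, if_false]
    refine ⟨by linarith, by linarith, by linarith, by linarith, by linarith⟩
  · simp only [if_true]
    refine ⟨by linarith, by linarith, by linarith, by linarith, by linarith⟩

/-- the region of an annulus tile -/
theorem ann_region {n i j : ℕ} {up : Bool} {w : ℂ} (hw : w ∈ To)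
    (hv : i + j + (if up then 2 else 1) ≤ sn n) :
    -6 < ((⟨-6, 6⟩ : ℂ) + loc i j up w / 5 ^ n).re ∧ 6 < ((⟨-6, 6⟩ : ℂ) + loc i j up w / 5 ^ n).im ∧
    3 * ((⟨-6, 6⟩ : ℂ) + loc i j up w / 5 ^ n).re +
      4 * ((⟨-6, 6⟩ : ℂ) + loc i j up w / 5 ^ n).im < 150 := by
  have h5 : (0:ℝ) < 5 ^ n := by positivity
  have e : ((5:ℂ) ^ n) = (((5:ℝ) ^ n : ℝ) : ℂ) := by push_cast; rfl
  rw [e]
  simp only [add_re, add_im, Complex.div_ofReal_re, Complex.div_ofReal_im]
  obtain ⟨h1, h2, h3, h4, h6⟩ := loc_pos (i := i) (j := j) (up := up) hw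
  have hv' : ((i + j + (if up then 2 else 1) : ℕ) : ℝ) ≤ (sn n : ℕ) := by exact_mod_cast hv
  have hs : ((sn n : ℕ) : ℝ) = 12 * 5 ^ n := by simp [sn]
  rw [hs] at hv'
  have hv'' : (i:ℝ) + j + (if up then 2 else 1) ≤ 12 * 5 ^ n := by
    cases up <;> simpa using hv'
  have p1 : 0 < (loc i j up w).re := lt_of_le_of_lt (by positivity) h1
  have p2 : 0 < (loc i j up w).im := lt_of_le_of_lt (by positivity) h3
  have q1 : 0 < (loc i j up w).re / 5 ^ n := div_pos p1 h5
  have q2 : 0 < (loc i j up w).im / 5 ^ n := div_pos p2 h5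
  have q3 : (3 * (loc i j up w).re + 4 * (loc i j up w).im) / 5 ^ n < 144 := by
    rw [div_lt_iff₀ h5]
    linarith
  have q4 : (3 * (loc i j up w).re + 4 * (loc i j up w).im) / 5 ^ n
      = 3 * ((loc i j up w).re / 5 ^ n) + 4 * ((loc i j up w).im / 5 ^ n) := by ring
  rw [q4] at q3
  refine ⟨by linarith, by linarith, by linarith⟩

theorem region_N {z : ℂ} (h1 : -6 < z.re) (h2 : 6 < z.im) (h3 : 3 * z.re + 4 * z.im < 150) :
    6 < N z ∧ N (z / al) < 6 := by
  constructor
  · exact lt_of_lt_of_le (lt_of_lt_of_le h2 (le_abs_self _)) (le_max_right _ _)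
  · rw [N_lt_iff, div_al]
    simp only
    refine ⟨⟨?_, ?_⟩, ?_, ?_⟩ <;> linarith

theorem core_N {i j : ℕ} {up : Bool} {w : ℂ} (hw : w ∈ To) (hi : i < 3) (hj : j < 4) :
    N ((⟨-6, -6⟩ : ℂ) + loc i j up w) < 6 := by
  obtain ⟨h1, h2, h3, h4, -⟩ := loc_pos (i := i) (j := j) (up := up) hw
  have hi' : (i:ℝ) + 1 ≤ 3 := by exact_mod_cast hi
  have hj' : (j:ℝ) + 1 ≤ 4 := by exact_mod_cast hj
  have p1 : 0 < (loc i j up w).re := lt_of_le_of_lt (by positivity) h1
  have p2 : 0 < (loc i j up w).im := lt_of_le_of_lt (by positivity) h3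
  rw [N_lt_iff]
  simp only [add_re, add_im]
  refine ⟨⟨?_, ?_⟩, ?_, ?_⟩ <;> linarith

theorem rot1 (z : ℂ) : (-I) ^ 1 * z = ⟨z.im, -z.re⟩ := by
  apply Complex.ext <;> simp
theorem rot2 (z : ℂ) : (-I) ^ 2 * z = ⟨-z.re, -z.im⟩ := by
  have : ((-I:ℂ)) ^ 2 = -1 := by rw [neg_sq, I_sq]
  rw [this]
  apply Complex.ext <;> simp
theorem rot3 (z : ℂ) : (-I) ^ 3 * z = ⟨-z.im, z.re⟩ := by
  have : ((-I:ℂ)) ^ 3 = I := by rw [pow_succ, neg_sq, I_sq]; ring
  rw [this]
  apply Complex.ext <;> simp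
theorem rot4 : ((-I:ℂ)) ^ 4 = 1 := by
  rw [show (4:ℕ) = 2 * 2 by norm_num, pow_mul, neg_sq, I_sq]; norm_num

theorem quad_det {k k' : ℕ} (hk : k < 4) (hk' : k' < 4) {z z' : ℂ} (h1 : -6 < z.re) (h2 : 6 < z.im)
    (h1' : -6 < z'.re) (h2' : 6 < z'.im) (h : (-I) ^ k * z = (-I) ^ k' * z') : k = k' := by
  have e0 : ∀ z : ℂ, (-I) ^ 0 * z = ⟨z.re, z.im⟩ := fun z => by simp
  interval_cases k <;> interval_cases k' <;> first
    | rfl
    | (exfalso
       simp only [e0, rot1, rot2, rot3, Complex.mk.injEq] at h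
       obtain ⟨a, b⟩ := h
       linarith)

theorem tm_det {t t' : Idx} (hv : t.valid) (hv' : t'.valid) {w w' : ℂ} (hw : w ∈ To) (hw' : w' ∈ To)
    (h : tm t w = tm t' w') : t = t' := by
  obtain ⟨lv, k, i, j, up⟩ := t
  obtain ⟨lv', k', i', j', up'⟩ := t'
  cases lv with
  | zero =>
    cases lv' with
    | zero =>
      simp only [tm] at h
      simp only [Idx.valid] at hv hv'
      have := loc_det hw hw' (add_left_cancel h)
      rw [hv.1, hv'.1, this.1, this.2.1, this.2.2]
    | succ m =>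
      exfalso
      simp only [tm] at h
      simp only [Idx.valid] at hv hv'
      have h1 := core_N (up := up) hw hv.2.1 hv.2.2
      have h2 := ann_region (n := m) hw' hv'.2
      have h3 := (region_N h2.1 h2.2.1 h2.2.2).1
      rw [← lev_pl m k', ← h] at h3
      have h4 := lev_anti 0 m (Nat.zero_le _) ((⟨-6, -6⟩ : ℂ) + loc i j up w)
      have h5 : lev 0 ((⟨-6, -6⟩ : ℂ) + loc i j up w) = N ((⟨-6, -6⟩ : ℂ) + loc i j up w) := by
        rw [lev, pow_zero, div_one]
      linarith
  | succ n =>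
    cases lv' with
    | zero =>
      exfalso
      simp only [tm] at h
      simp only [Idx.valid] at hv hv'
      have h1 := core_N (up := up') hw' hv'.2.1 hv'.2.2
      have h2 := ann_region (n := n) hw hv.2
      have h3 := (region_N h2.1 h2.2.1 h2.2.2).1
      rw [← lev_pl n k, h] at h3
      have h4 := lev_anti 0 n (Nat.zero_le _) ((⟨-6, -6⟩ : ℂ) + loc i' j' up' w')
      have h5 : lev 0 ((⟨-6, -6⟩ : ℂ) + loc i' j' up' w') = N ((⟨-6, -6⟩ : ℂ) + loc i' j' up' w') := by
        rw [lev, pow_zero, div_one]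
      linarith
    | succ m =>
      simp only [tm] at h
      simp only [Idx.valid] at hv hv'
      have r1 := ann_region (n := n) hw hv.2
      have r2 := ann_region (n := m) hw' hv'.2
      have s1 := region_N r1.1 r1.2.1 r1.2.2
      have s2 := region_N r2.1 r2.2.1 r2.2.2
      have hnm : n = m := by
        rcases lt_trichotomy n m with hlt | heq | hgt
        · exfalso
          have a1 := s1.2
          have a2 := s2.1
          rw [← lev_pl_succ n k, h] at a1
          rw [← lev_pl m k'] at a2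
          have := lev_anti (n+1) m hlt (pl m k' (⟨-6, 6⟩ + loc i' j' up' w' / 5 ^ m))
          linarith
        · exact heq
        · exfalso
          have a1 := s2.2
          have a2 := s1.1
          rw [← lev_pl_succ m k', ← h] at a1
          rw [← lev_pl n k] at a2
          have := lev_anti (m+1) n hgt (pl n k (⟨-6, 6⟩ + loc i j up w / 5 ^ n))
          linarith
      subst hnm
      have h' : (-I) ^ k * (⟨-6, 6⟩ + loc i j up w / 5 ^ n)
          = (-I) ^ k' * (⟨-6, 6⟩ + loc i' j' up' w' / 5 ^ n) := by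
        rw [← pl_div n k, ← pl_div n k', h]
      have hk := quad_det hv.1 hv'.1 r1.1 r1.2.1 r2.1 r2.2.1 h'
      subst hk
      have h2 := mul_left_cancel₀ (negI_pow_ne k) h'
      have h3 := add_left_cancel h2
      have h4 : loc i j up w = loc i' j' up' w' := by
        have h5 : ((5:ℂ) ^ n) ≠ 0 := pow_ne_zero _ (by norm_num)
        field_simp at h3
        exact h3
      have := loc_det hw hw' h4
      rw [this.1, this.2.1, this.2.2]

theorem tiles_disjoint {t t' : Idx} (hv : t.valid) (hv' : t'.valid) (hne : t ≠ t') :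
    Disjoint (interior (tiso t '' T)) (interior (tiso t' '' T)) := by
  rw [Set.disjoint_left]
  intro z hz hz'
  have h1 : interior (tiso t '' T) = tiso t '' interior T :=
    ((tiso t).toHomeomorph.image_interior T).symm
  have h2 : interior (tiso t' '' T) = tiso t' '' interior T :=
    ((tiso t').toHomeomorph.image_interior T).symm
  rw [h1] at hz
  rw [h2] at hz'
  obtain ⟨w, hw, rfl⟩ := hz
  obtain ⟨w', hw', h⟩ := hz'
  rw [tiso_apply, tiso_apply] at h
  exact hne (tm_det hv hv' (interior_T_sub hw) (interior_T_sub hw') h.symm)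

end Pool.Agent.R495.SP
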